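import Pool.Agent.H940.W.LocV
import Pool.Agent.H940.P.Loc

set_option autoImplicit false
set_option linter.unusedSectionVars false
set_option linter.unusedVariables false

/-! # Weighted homogeneous products are of linear type -/

namespace Pool.Agent.H940.W

open MvPolynomial
open Pool.Agent.H940.LT
open Pool.Agent.H940.E (slc)
open Pool.Agent.H940.P (lg lg_def lg_mul lg_one lg_zero lg_whom lg_euler_w WHT exists_euler'
  exists_pow')

variable {n T : ℕ}

theorem slc_prod (i : Fin (n + 1)) (P : Fin (n + 1) → ℂ)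
    (F : Fin T → MvPolynomial (Fin (n + 1)) ℂ) :
    slc i P (∏ t, F t) = ∏ t, slc i P (F t) := by
  unfold slc
  rw [map_prod]

theorem slc_lg (i : Fin (n + 1)) (P : Fin (n + 1) → ℂ)
    (F : Fin T → MvPolynomial (Fin (n + 1)) ℂ) (a : Fin T → ℕ) (j : Fin n) :
    slc i P (lg F a (i.succAbove j)) = lg (fun t => slc i P (F t)) a j := by
  rw [lg_def, lg_def]
  simp only [pderiv_slc]
  unfold slc
  rw [map_sum]
  refine Finset.sum_congr rfl fun t _ => ?_
  rw [map_mul, map_mul, map_prod, map_natCast]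

section

variable {F : Fin T → MvPolynomial (Fin (n + 1)) ℂ} {a : Fin T → ℕ} (ha : ∀ t, 1 ≤ a t)
  {w : Fin (n + 1) → ℕ} (hw : ∀ i, 0 < w i) {D : Fin T → ℕ} (hd : ∀ i, w i < ∑ t, D t)
  (hF : ∀ t, (F t).IsWeightedHomogeneous w (D t)) (hF0 : ∀ t, F t ≠ 0)
include ha hw hd hF hF0

theorem prod_wh : (∏ t, F t).IsWeightedHomogeneous w (∑ t, D t) :=
  IsWeightedHomogeneous.prod _ _ _ fun t _ => hF t

theorem e_ne : ((∑ t, a t * D t : ℕ) : ℂ) ≠ 0 := by
  have h3 : ∑ t, D t ≤ ∑ t, a t * D t :=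
    Finset.sum_le_sum fun t _ => Nat.le_mul_of_pos_left _ (ha t)
  have h4 := hd 0
  have h5 : ∑ t, a t * D t ≠ 0 := by omega
  exact_mod_cast h5

theorem crit_prod {P : Fin (n + 1) → ℂ} (h : ∀ j, eval P (lg F a j) = 0) :
    eval P (∏ t, F t) = 0 ∧ ∀ j, eval P (pderiv j (∏ t, F t)) = 0 := by
  have h1 := congrArg (eval P) (lg_euler_w F a w D hF)
  rw [map_sum, map_mul, eval_C] at h1
  have h2 : ∑ i, eval P (C (w i : ℂ) * X i * lg F a i) = 0 := Finset.sum_eq_zero fun i _ => by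
    rw [map_mul, h i, mul_zero]
  rw [h2] at h1
  have h3 := (mul_eq_zero.1 h1.symm).resolve_left (e_ne ha hw hd hF hF0)
  refine ⟨h3, fun j => ?_⟩
  rw [← lg_one F (Finset.prod_ne_zero_iff.2 fun t _ => hF0 t)]
  exact lg_zero F (fun _ => 1) ha P h3 h j

/-- **Linear type for products.** -/
theorem wlty_tuple (HS : ∀ P : Fin (n + 1) → ℂ, P ≠ 0 →
    (∀ j, eval P (pderiv j (∏ t, F t)) = 0) → ∃ i, P i ≠ 0 ∧
      ∃ (g : Fin T → MvPolynomial (Fin n) ℂ) (w' : Fin n → ℕ) (N : Fin T → ℕ)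
        (η : Fin n → MvPowerSeries (Fin n) ℂ), WHT (fun t => slc i P (F t)) g w' N η) :
    LTy (lg F a) := by
  classical
  have hP0 : ∏ t, F t ≠ 0 := Finset.prod_ne_zero_iff.2 fun t _ => hF0 t
  refine wltyV hw hd (prod_wh ha hw hd hF hF0) hP0 (v := lg F a)
    (fun i => lg_whom F a w D hF i (hd i).le) (e_ne ha hw hd hF hF0)
    (lg_euler_w F a w D hF) fun P hP hs => ?_
  obtain ⟨h0, h1⟩ := crit_prod ha hw hd hF hF0 hs
  obtain ⟨i, hi, g, w', N, η, hW⟩ := HS P hP h1
  have hn : 0 < n := by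
    choose q hq using fun i => IsAlgClosed.exists_pow_nat_eq (P i) (hw i)
    refine npos hw hd (prod_wh ha hw hd hF hF0) hP0 (q := q) ?_ ?_
    · intro h
      apply hP
      funext i
      rw [← hq i, h, Pi.zero_apply, zero_pow (hw i).ne']
    · intro j
      rw [eval_pw, ← h1 j]
      congr 1
      congr 1
      exact funext hq
  have hins : (i.insertNth (P i) fun t => (0 : Fin n → ℂ) t + P (i.succAbove t) :
      Fin (n + 1) → ℂ) = P := by
    funext l
    refine Fin.succAboveCases i ?_ (fun t => ?_) l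
    · rw [Fin.insertNth_apply_same]
    · rw [Fin.insertNth_apply_succAbove, Pi.zero_apply, zero_add]
  have h2 : constantCoeff (∏ t, slc i P (F t)) = 0 := by
    rw [← slc_prod, ← eval_zero, eval_slc, hins]
    exact h0
  have h3 : ∀ t, constantCoeff (pderiv t (∏ t, slc i P (F t))) = 0 := by
    intro t
    rw [← slc_prod, pderiv_slc, ← eval_zero, eval_slc, hins]
    exact h1 _
  refine ⟨i, hi, ?_, ?_⟩
  · obtain ⟨u, b, hu, hb, hub⟩ := exists_euler' hW h2 h3 a ha hn
    refine ⟨u, b, hu, hb, ?_⟩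
    rw [slc_prod, hub]
    exact Finset.sum_congr rfl fun t _ => by rw [slc_lg]
  · obtain ⟨L, u, hu, hL⟩ := exists_pow' hW h2 h3 a ha hn
    refine ⟨L, u, hu, fun t => ?_⟩
    have h4 : (fun t => slc i P (lg F a (i.succAbove t))) =
        fun t => lg (fun t => slc i P (F t)) a t := by
      funext t
      rw [slc_lg]
    rw [h4]
    exact hL t

end

end Pool.Agent.H940.W
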