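import Pool.Agent.H940.W.Loc

set_option autoImplicit false
set_option linter.unusedSectionVars false
set_option linter.unusedVariables false

/-! # Weighted homogeneous polynomials whose slices are weighted homogeneous isolated singularities are
of linear type -/

namespace Pool.Agent.H940.W

open MvPolynomial
open Pool.Agent.H940.LT
open Pool.Agent.H940.E (slc)
open Pool.Agent.H940.G (WHG exists_euler exists_pow)

variable {n : ℕ}

theorem prj_one (w : Fin n → ℕ) : prj w (1 : MvPolynomial (Fin n) ℂ) = 1 := by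
  have h2 := prj_monomial w 0 1
  rw [if_pos (by simp)] at h2
  have h3 : (Finsupp.equivFunOnFinite.symm fun i => (0 : Fin n →₀ ℕ) i / w i) =
      (0 : Fin n →₀ ℕ) := by
    ext i
    change (0 : ℕ) / w i = 0
    exact Nat.zero_div _
  rw [h3] at h2
  exact h2

section

variable {w : Fin (n + 1) → ℕ} (hw : ∀ i, 0 < w i) {d : ℕ} (hd : ∀ i, w i < d)
  {f : MvPolynomial (Fin (n + 1)) ℂ} (hf : f.IsWeightedHomogeneous w d) (hf0 : f ≠ 0)
include hw hd hf hf0

theorem euler_split (i0 : Fin (n + 1)) : pw w f = C ((w i0 : ℂ) / d) * X i0 ^ w i0 *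
    pw w (pderiv i0 f) + ∑ j, C ((w (i0.succAbove j) : ℂ) / d) *
      X (i0.succAbove j) ^ w (i0.succAbove j) * pw w (pderiv (i0.succAbove j) f) := by
  have hdc := d_ne hw hd hf hf0
  have h2 := euler_V hw hd hf hf0
  have h4 : ∀ j, C (d : ℂ) * (C ((w j : ℂ) / d) * X j ^ w j * pw w (pderiv j f)) =
      C (w j : ℂ) * X j ^ w j * pw w (pderiv j f) := by
    intro j
    have h5 : (C (d : ℂ) : MvPolynomial (Fin (n + 1)) ℂ) * C ((w j : ℂ) / d) =
        C (w j : ℂ) := by
      rw [← C_mul, mul_div_cancel₀ _ hdc]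
    rw [← mul_assoc, ← mul_assoc, h5]
  have hC : (C (d : ℂ) : MvPolynomial (Fin (n + 1)) ℂ) ≠ 0 := by
    rw [Ne, C_eq_zero]
    exact hdc
  have h6 := Fin.sum_univ_succAbove (fun j => C ((w j : ℂ) / d) * X j ^ w j *
    pw w (pderiv j f)) i0
  rw [← h6]
  apply mul_left_cancel₀ hC
  rw [h2, Finset.mul_sum]
  exact Finset.sum_congr rfl fun j _ => (h4 j).symm

theorem E_ne (t : Fin (n + 1) → ℂ) (k : Fin (n + 1)) (hk : t k ≠ 0) :
    eval t (C ((w k : ℂ) / d) * X k ^ w k) ≠ 0 := by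
  rw [map_mul, eval_C, map_pow, eval_X]
  have h3 : (w k : ℂ) ≠ 0 := by
    have := (hw k).ne'
    exact_mod_cast this
  exact mul_ne_zero (div_ne_zero h3 (d_ne hw hd hf hf0)) (pow_ne_zero _ hk)

variable (HS : ∀ P : Fin (n + 1) → ℂ, P ≠ 0 → (∀ j, eval P (pderiv j f) = 0) →
  ∃ i, P i ≠ 0 ∧ ∃ (g : MvPolynomial (Fin n) ℂ) (w' : Fin n → ℕ) (N : ℕ)
    (η : Fin n → MvPowerSeries (Fin n) ℂ), WHG (slc i P f) g w' N η)
include HS

/-- **The Jacobian ideal is of linear type.** -/
theorem wlty : LTy fun i => pderiv i f := by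
  classical
  refine lty_descend (pw w).toRingHom (prj w).toAddMonoidHom (fun a s => prj_pw w hw a s)
    (prj_one w) _ ?_
  obtain ⟨i0, hi0⟩ := Finite.exists_max w
  set e : Fin (n + 1) ≃ Fin (n + 1) := (finSuccEquiv' 0).trans (finSuccEquiv' i0).symm with he
  have he0 : e 0 = i0 := by
    rw [he, Equiv.trans_apply, finSuccEquiv'_at, finSuccEquiv'_symm_none]
  have hes : ∀ j : Fin n, e j.succ = i0.succAbove j := by
    intro j
    rw [he, Equiv.trans_apply, ← Fin.zero_succAbove, finSuccEquiv'_succAbove,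
      finSuccEquiv'_symm_some]
  refine lty_perm e _ ?_
  have h1 : (fun i => (pw w).toRingHom (pderiv (e i) f)) =
      (Fin.cons (pw w (pderiv i0 f)) fun j => pw w (pderiv (i0.succAbove j) f) :
        Fin (n + 1) → MvPolynomial (Fin (n + 1)) ℂ) := by
    funext i
    refine Fin.cases ?_ (fun j => ?_) i
    · rw [Fin.cons_zero, he0]
      rfl
    · rw [Fin.cons_succ, hes]
      rfl
  rw [h1]
  obtain ⟨T, hT, hfin⟩ := fin_lines hw hd hf hf0 HS
  have hall : ∀ q : Fin (n + 1) → ℂ, eval q (pw w (pderiv i0 f)) = 0 →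
      (∀ j, eval q (pw w (pderiv (i0.succAbove j) f)) = 0) →
      ∀ j, eval q (pw w (pderiv j f)) = 0 := by
    intro q h1 h2 j
    exact Fin.succAboveCases i0 h1 h2 j
  have hdc := d_ne hw hd hf hf0
  refine core (pw w f) (pw w (pderiv i0 f)) (fun j => pw w (pderiv (i0.succAbove j) f))
    (fun j => w i0 - w (i0.succAbove j)) (fun j => w (i0.succAbove j)) (d - w i0) (w i0) d
    (Nat.sub_pos_of_lt (hd i0)) (hw i0) (pw_ne hw hf0) (pw_hom w _ _ hf)
    (V_hom hw hd hf hf0 i0) (fun j => ?_)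
    (C ((w i0 : ℂ) / d) * X i0 ^ w i0)
    (fun j => C ((w (i0.succAbove j) : ℂ) / d) * X (i0.succAbove j) ^ w (i0.succAbove j))
    ?_ (fun j => ?_) (fun j => ?_) ?_ T hT (fun t ht => ?_)
    (fun q hq h1 h2 => hfin q hq (hall q h1 h2)) (fun q hq h1 h2 => ?_)
  · have h2 := V_hom hw hd hf hf0 (i0.succAbove j)
    have h3 : d - w i0 + (w i0 - w (i0.succAbove j)) = d - w (i0.succAbove j) := by
      have := hd i0
      have := hi0 (i0.succAbove j)
      omega
    rw [h3]
    exact h2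
  · have h2 := (isHomogeneous_C (Fin (n + 1)) ((w i0 : ℂ) / d)).mul
      ((isHomogeneous_X ℂ i0).pow (w i0))
    rwa [zero_add, one_mul] at h2
  · have h2 := (isHomogeneous_C (Fin (n + 1)) ((w (i0.succAbove j) : ℂ) / d)).mul
      ((isHomogeneous_X ℂ (i0.succAbove j)).pow (w (i0.succAbove j)))
    rwa [zero_add, one_mul] at h2
  · have := hi0 (i0.succAbove j)
    change w (i0.succAbove j) + (w i0 - w (i0.succAbove j)) = w i0
    omega
  · exact euler_split hw hd hf hf0 i0
  · obtain ⟨k, hk⟩ : ∃ k, t k ≠ 0 := by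
      by_contra hcon
      push Not at hcon
      exact hT t ht (funext hcon)
    have h2 := E_ne hw hd hf hf0 t
    revert hk
    refine Fin.succAboveCases i0 (fun hk => ?_) (fun j hk => ?_) k
    · exact Or.inl (h2 _ hk)
    · exact Or.inr ⟨j, h2 _ hk⟩
  · obtain ⟨U, A, hU, hA, hUA⟩ := loc_euler hw hd hf hf0 HS hq (hall q h1 h2)
    refine ⟨U, A i0, fun j => A (i0.succAbove j), hU, hA _, fun j => hA _, ?_⟩
    rw [hUA, Fin.sum_univ_succAbove _ i0]

end

end Pool.Agent.H940.W
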