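import Pool.Agent.H940.W.Gen
import Pool.Agent.H940.E.Bc

set_option autoImplicit false
set_option linter.unusedSectionVars false
set_option linter.unusedVariables false

/-! # Linear type for forms of different degrees -/

namespace Pool.Agent.H940.W

open MvPolynomial
open Pool.Agent.H940.LT
open Pool.Agent.TH144.MB (NZ lin)

variable {n : ℕ}

/-- **Linear type.** -/
theorem core (F V0 : MvPolynomial (Fin (n + 1)) ℂ)
    (V : Fin n → MvPolynomial (Fin (n + 1)) ℂ) (δ μ : Fin n → ℕ) (e0 m D : ℕ) (he0 : 0 < e0)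
    (hm : 0 < m) (hF : F ≠ 0) (hFh : F.IsHomogeneous D) (hV0 : V0.IsHomogeneous e0)
    (hV : ∀ j, (V j).IsHomogeneous (e0 + δ j)) (E0 : MvPolynomial (Fin (n + 1)) ℂ)
    (E : Fin n → MvPolynomial (Fin (n + 1)) ℂ) (hE0 : E0.IsHomogeneous m)
    (hE : ∀ j, (E j).IsHomogeneous (μ j)) (hμ : ∀ j, μ j + δ j = m)
    (heul0 : F = E0 * V0 + ∑ j, E j * V j)
    (T : Finset (Fin (n + 1) → ℂ)) (hT : ∀ t ∈ T, t ≠ 0)
    (hET : ∀ t ∈ T, eval t E0 ≠ 0 ∨ ∃ j, eval t (E j) ≠ 0)
    (hfin : ∀ q : Fin (n + 1) → ℂ, q ≠ 0 → eval q V0 = 0 → (∀ j, eval q (V j) = 0) →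
      ∃ t ∈ T, ∃ c : ℂ, q = c • t)
    (hqh : ∀ q : Fin (n + 1) → ℂ, q ≠ 0 → eval q V0 = 0 → (∀ j, eval q (V j) = 0) →
      ∃ (u A0 : MvPolynomial (Fin (n + 1)) ℂ) (A : Fin n → MvPolynomial (Fin (n + 1)) ℂ),
        eval q u ≠ 0 ∧ eval q A0 = 0 ∧ (∀ j, eval q (A j) = 0) ∧
        u * F = A0 * V0 + ∑ j, A j * V j) :
    LTy (Fin.cons V0 V : Fin (n + 1) → MvPolynomial (Fin (n + 1)) ℂ) := by
  classical
  obtain ⟨c, hcT, hcq⟩ := exists_gen F V0 V δ D e0 hF hFh hV0 hV T hT E0 E hET
  set a : Fin n → MvPolynomial (Fin (n + 1)) ℂ := fun j => ∑ k, C (c (j, k)) * X k ^ δ j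
    with ha
  have hah : ∀ j, (a j).IsHomogeneous (δ j) := by
    intro j
    refine IsHomogeneous.sum _ _ _ fun k _ => ?_
    have h1 := (isHomogeneous_C (Fin (n + 1)) (c (j, k))).mul
      ((isHomogeneous_X ℂ k).pow (δ j))
    rwa [zero_add, one_mul] at h1
  have hae : ∀ j (q : Fin (n + 1) → ℂ), eval q (a j) = ∑ k, c (j, k) * q k ^ δ j := by
    intro j q
    rw [ha]
    simp only [map_sum, map_mul, eval_C, map_pow, eval_X]
  set h : Fin n → MvPolynomial (Fin (n + 1)) ℂ := fun j => V j - a j * V0 with hh
  set L : MvPolynomial (Fin (n + 1)) ℂ := E0 + ∑ j, E j * a j with hL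
  have hhh : ∀ j, (h j).IsHomogeneous (e0 + δ j) := by
    intro j
    have h1 : (a j * V0).IsHomogeneous (e0 + δ j) := by
      have h2 := (hah j).mul hV0
      have h3 : δ j + e0 = e0 + δ j := add_comm _ _
      exact h3 ▸ h2
    exact (hV j).sub h1
  have hLh : L.IsHomogeneous m := by
    refine hE0.add (IsHomogeneous.sum _ _ _ fun j _ => ?_)
    have h1 := (hE j).mul (hah j)
    rwa [hμ j] at h1
  have hLT : ∀ t ∈ T, eval t L ≠ 0 := by
    intro t ht
    have h1 := hcT t ht
    rw [hL, map_add, map_sum]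
    simp only [map_mul, hae]
    exact h1
  -- Euler
  have heul : F = L * V0 + ∑ j : Fin n, E j * h j := by
    rw [heul0, hL, add_mul, add_assoc, Finset.sum_mul, ← Finset.sum_add_distrib]
    congr 1
    refine Finset.sum_congr rfl fun j _ => ?_
    rw [hh]
    ring
  -- at the zeros of `h`
  have hgrad : ∀ q : Fin (n + 1) → ℂ, (∀ j, eval q (h j) = 0) →
      ∀ j, eval q (V j) = eval q (a j) * eval q V0 := by
    intro q hq j
    have := hq j
    rw [hh] at this
    simp only [map_sub, map_mul] at this
    linear_combination this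
  have hLq : ∀ q : Fin (n + 1) → ℂ, q ≠ 0 → eval q V0 = 0 → (∀ j, eval q (V j) = 0) →
      eval q L ≠ 0 := by
    intro q hq0 h1 h2
    obtain ⟨t, ht, c', hc'⟩ := hfin q hq0 h1 h2
    have hc0 : c' ≠ 0 := by
      rintro rfl
      exact hq0 (by rw [hc', zero_smul])
    rw [hc', eval_homog L m hLh]
    exact mul_ne_zero (pow_ne_zero _ hc0) (hLT t ht)
  -- the regular sequence
  have hreg := regF_square (Fin.cons L h : Fin (n + 1) → MvPolynomial (Fin (n + 1)) ℂ)
    (Fin.cons m fun j => e0 + δ j)
    (fun i => by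
      induction i using Fin.cases with
      | zero => rw [Fin.cons_zero, Fin.cons_zero]; exact hLh
      | succ j => rw [Fin.cons_succ, Fin.cons_succ]; exact hhh j)
    (fun i => by
      induction i using Fin.cases with
      | zero => rw [Fin.cons_zero]; exact hm
      | succ j => rw [Fin.cons_succ]; omega) (by
    intro q hq
    have hq1 : eval q L = 0 := by
      have := hq 0
      rwa [Fin.cons_zero] at this
    have hq2 : ∀ j, eval q (h j) = 0 := by
      intro j
      have := hq j.succ
      rwa [Fin.cons_succ] at this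
    by_contra hq0
    have h1 := hgrad q hq2
    have h2 : eval q F = 0 := by
      have h3 := congrArg (eval q) heul
      rw [map_add, map_mul, hq1, zero_mul, zero_add, map_sum] at h3
      rw [Finset.sum_eq_zero fun j _ => by rw [map_mul, hq2 j, mul_zero]] at h3
      exact h3
    have h3 : eval q V0 = 0 := hcq q hq0 h2 fun j => by rw [h1 j, hae]
    exact hLq q hq0 h3 (fun j => by rw [h1 j, h3, mul_zero]) hq1)
  obtain ⟨hregF, hNZ⟩ := hreg
  rw [Fin.tail_cons] at hregF hNZ
  rw [Fin.cons_zero] at hNZ
  set I := Ideal.span (Set.range h) with hI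
  have hNZp : ∀ (k : ℕ) (x : MvPolynomial (Fin (n + 1)) ℂ), L ^ k * x ∈ I → x ∈ I := by
    intro k
    induction k with
    | zero =>
      intro x hx
      rwa [pow_zero, one_mul] at hx
    | succ k ih =>
      intro x hx
      refine ih x (hNZ _ ?_)
      rwa [pow_succ', mul_assoc] at hx
  have hmemI : ∀ j, h j ∈ I := fun j => Ideal.subset_span ⟨j, rfl⟩
  -- saturation
  set J : Ideal (MvPolynomial (Fin (n + 1)) ℂ) :=
    Submodule.comap (LinearMap.mulRight (MvPolynomial (Fin (n + 1)) ℂ) V0) I with hJ
  have hJmem : ∀ c, c ∈ J ↔ c * V0 ∈ I := fun c => Iff.rfl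
  set A := J ⊔ (Ideal.span {V0} ⊔ I) with hA
  have hlA : L ∈ A.radical := by
    rw [← vanishingIdeal_zeroLocus_eq_radical (K := ℂ)]
    intro q hq
    rw [mem_zeroLocus_iff] at hq
    have h1 : ∀ j, eval q (h j) = 0 := fun j =>
      hq (h j) (Ideal.mem_sup_right (Ideal.mem_sup_right (hmemI j)))
    have h2 : eval q V0 = 0 :=
      hq V0 (Ideal.mem_sup_right (Ideal.mem_sup_left (Ideal.mem_span_singleton_self V0)))
    by_cases hq0 : q = 0
    · change eval q L = 0
      have h3 := eval_homog L m hLh 0 0
      rw [hq0]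
      rwa [zero_smul, zero_pow hm.ne', zero_mul] at h3
    · exfalso
      have h3 : ∀ j, eval q (V j) = 0 := fun j => by rw [hgrad q h1 j, h2, mul_zero]
      obtain ⟨u, A0, A', hu, hA0, hA', hua⟩ := hqh q hq0 h2 h3
      set b := A0 + ∑ j : Fin n, A' j * a j with hb
      have h4 : (u * L - b) * V0 ∈ I := by
        have h5 : (u * L - b) * V0 = ∑ j : Fin n, (A' j - u * E j) * h j := by
          have h6 : u * (L * V0 + ∑ j : Fin n, E j * h j) =
              b * V0 + ∑ j : Fin n, A' j * h j := by
            rw [← heul]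
            have h7 : A0 * V0 + ∑ j, A' j * V j = b * V0 + ∑ j : Fin n, A' j * h j := by
              rw [hb, add_mul, add_assoc, Finset.sum_mul, ← Finset.sum_add_distrib]
              congr 1
              refine Finset.sum_congr rfl fun j _ => ?_
              rw [hh]
              ring
            rw [← h7, ← hua]
          have h8 : ∑ j : Fin n, (A' j - u * E j) * h j =
              (∑ j : Fin n, A' j * h j) - u * ∑ j : Fin n, E j * h j := by
            rw [Finset.mul_sum, ← Finset.sum_sub_distrib]
            exact Finset.sum_congr rfl fun j _ => by ring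
          rw [h8]
          linear_combination h6
        rw [h5]
        exact Ideal.sum_mem _ fun j _ => Ideal.mul_mem_left _ _ (hmemI j)
      have h9 := hq _ (Ideal.mem_sup_left ((hJmem _).2 h4))
      change eval q (u * L - b) = 0 at h9
      have hb0 : eval q b = 0 := by
        rw [hb, map_add, hA0, zero_add, map_sum]
        exact Finset.sum_eq_zero fun j _ => by rw [map_mul, hA', zero_mul]
      rw [map_sub, map_mul, hb0, sub_zero] at h9
      exact (mul_ne_zero hu (hLq q hq0 h2 h3)) h9
  obtain ⟨M, hM⟩ := hlA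
  have hsat : ∀ (c : MvPolynomial (Fin (n + 1)) ℂ) (m : ℕ), c * V0 ^ (m + 1) ∈ I →
      c * V0 ∈ I := by
    obtain ⟨x, hx, y, hy, hxy⟩ := Submodule.mem_sup.1 hM
    obtain ⟨z, hz, t, ht, hzt⟩ := Submodule.mem_sup.1 hy
    obtain ⟨v, rfl⟩ := Ideal.mem_span_singleton'.1 hz
    intro c m
    induction m with
    | zero =>
      intro h1
      rwa [zero_add, pow_one] at h1
    | succ m ih =>
      intro h1
      refine ih (hNZp M _ ?_)
      have h2 : L ^ M * (c * V0 ^ (m + 1)) =
          (c * V0 ^ m) * (x * V0) + v * (c * V0 ^ (m + 1 + 1)) + (c * V0 ^ (m + 1)) * t := by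
        rw [← hxy, ← hzt]
        ring
      rw [h2]
      exact Ideal.add_mem _ (Ideal.add_mem _ (Ideal.mul_mem_left _ _ ((hJmem x).1 hx))
        (Ideal.mul_mem_left _ _ h1)) (Ideal.mul_mem_left _ _ ht)
  have hLt := lty_cons V0 h hregF.lty (qr_of _ hregF.lty hregF.kos.kw) hsat
  refine hLt.matrix
    (Fin.cons (Fin.cons 1 0) fun j => Fin.cons (a j) (Pi.single j 1))
    (Fin.cons (Fin.cons 1 0) fun j => Fin.cons (-a j) (Pi.single j 1)) ?_ ?_ ?_
  · intro i
    rw [Fin.sum_univ_succ]
    induction i using Fin.cases with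
    | zero => simp
    | succ i =>
      simp only [Fin.cons_succ, Fin.cons_zero]
      simp only [Pi.single_apply, ite_mul, one_mul, zero_mul]
      rw [Finset.sum_ite_eq' Finset.univ i, if_pos (Finset.mem_univ i)]
      rw [hh]
      ring
  · intro i
    rw [Fin.sum_univ_succ]
    induction i using Fin.cases with
    | zero => simp
    | succ i =>
      simp only [Fin.cons_succ, Fin.cons_zero]
      simp only [Pi.single_apply, ite_mul, one_mul, zero_mul]
      rw [Finset.sum_ite_eq' Finset.univ i, if_pos (Finset.mem_univ i)]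
      rw [hh]
      ring
  · intro i k
    rw [Fin.sum_univ_succ]
    induction i using Fin.cases with
    | zero =>
      induction k using Fin.cases with
      | zero => simp
      | succ k => simp [(Fin.succ_ne_zero k).symm]
    | succ i =>
      simp only [Fin.cons_succ, Fin.cons_zero]
      simp only [Pi.single_apply, ite_mul, one_mul, zero_mul]
      rw [Finset.sum_ite_eq' Finset.univ i, if_pos (Finset.mem_univ i)]
      induction k using Fin.cases with
      | zero => simp
      | succ k => simp [Pi.single_apply, Fin.succ_inj, eq_comm]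

/-- the order of the elements does not matter -/
theorem lty_perm {ι κ R : Type} [Fintype ι] [Fintype κ] [CommRing R] (e : ι ≃ κ) (g : κ → R)
    (h : LTy fun i => g (e i)) : LTy g := by
  classical
  intro m Φ hΦ h0
  have h1 : rename e.symm Φ ∈ LinI fun i => g (e i) := by
    refine h m _ hΦ.rename_isHomogeneous ?_
    rw [eval_rename]
    have h2 : ((fun i => g (e i)) ∘ e.symm) = g := by
      funext k
      change g (e (e.symm k)) = g k
      rw [e.apply_symm_apply]
    rw [h2]
    exact h0
  have h3 : rename e (rename e.symm Φ) = Φ := by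
    rw [rename_rename]
    have h4 : (e ∘ e.symm) = (id : κ → κ) := by
      funext k
      exact e.apply_symm_apply k
    rw [h4, rename_id, AlgHom.id_apply]
  rw [← h3]
  have h4 := Ideal.mem_map_of_mem (rename e : MvPolynomial ι R →ₐ[R] MvPolynomial κ R) h1
  refine (Ideal.map_le_iff_le_comap.2 ?_ : Ideal.map (rename e : MvPolynomial ι R →ₐ[R]
    MvPolynomial κ R) (LinI fun i => g (e i)) ≤ LinI g) h4
  refine Ideal.span_le.2 ?_
  rintro _ ⟨η, hη, rfl⟩
  refine Ideal.subset_span ⟨fun k => η (e.symm k), ?_, ?_⟩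
  · rw [← hη, ← e.sum_comp]
    refine Finset.sum_congr rfl fun i _ => ?_
    simp only [Equiv.symm_apply_apply]
  · unfold linF
    rw [map_sum, ← e.sum_comp]
    refine Finset.sum_congr rfl fun i _ => ?_
    simp only [Equiv.symm_apply_apply, map_mul, rename_C, rename_X]

/-- descent along a ring map with a linear projection -/
theorem lty_descend {ι R S : Type} [Fintype ι] [CommRing R] [CommRing S] (φ : R →+* S)
    (π : S →+ R) (hπ : ∀ a s, π (φ a * s) = a * π s) (hπ1 : π 1 = 1) (g : ι → R)
    (h : LTy fun i => φ (g i)) : LTy g := by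
  classical
  intro m Φ hΦ h0
  have h1 : map φ Φ ∈ LinI fun i => φ (g i) := by
    refine h m _ (hΦ.map φ) ?_
    rw [eval_map]
    have h2 := MvPolynomial.eval₂_comp_left φ (RingHom.id R) g Φ
    rw [RingHom.comp_id] at h2
    have h3 : eval g Φ = eval₂ (RingHom.id R) g Φ := rfl
    rw [← h3, h0, map_zero] at h2
    exact h2.symm
  set Q : MvPolynomial ι S →+ MvPolynomial ι R :=
    AddMonoidHom.mk' (Pool.Agent.H940.E.mc π)
      (Pool.Agent.H940.E.mc_add π (map_zero π) (map_add π)) with hQ
  have hQc : ∀ P β, coeff β (Q P) = π (coeff β P) := fun P β =>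
    Pool.Agent.H940.E.coeff_mc π (map_zero π) P β
  have hQm : ∀ β s, Q (monomial β s) = monomial β (π s) := by
    intro β s
    ext γ
    rw [hQc, coeff_monomial, coeff_monomial]
    split_ifs
    · rfl
    · rw [map_zero]
  have hQΦ : Q (map φ Φ) = Φ := by
    ext β
    rw [hQc, coeff_map]
    have h2 := hπ (coeff β Φ) 1
    rwa [mul_one, hπ1, mul_one] at h2
  rw [← hQΦ]
  have h3 : ∀ Ψ ∈ LinI fun i => φ (g i), ∀ a, Q (a * Ψ) ∈ LinI g := by
    intro Ψ hΨ
    unfold LinI at hΨ
    induction hΨ using Submodule.span_induction with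
    | mem Ψ hΨ =>
      obtain ⟨η, hη, rfl⟩ := hΨ
      intro a
      induction a using MvPolynomial.induction_on' with
      | monomial β s =>
        have h4 : monomial β s * linF η = ∑ i, monomial (β + Finsupp.single i 1) (s * η i) := by
          unfold linF
          rw [Finset.mul_sum]
          refine Finset.sum_congr rfl fun i _ => ?_
          rw [← mul_assoc, mul_comm (monomial β s) (C (η i)), C_mul_monomial, X,
            monomial_mul, mul_one, mul_comm (η i) s]
        have h5 : Q (monomial β s * linF η) = monomial β 1 * linF (fun i => π (s * η i)) := by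
          rw [h4, map_sum]
          unfold linF
          rw [Finset.mul_sum]
          refine Finset.sum_congr rfl fun i _ => ?_
          rw [hQm, ← mul_assoc, mul_comm (monomial β 1) (C _), C_mul_monomial, X,
            monomial_mul, mul_one, mul_one]
        rw [h5]
        refine Ideal.mul_mem_left _ _ (Ideal.subset_span ⟨_, ?_, rfl⟩)
        have h6 : ∑ i, π (s * η i) * g i = π (s * ∑ i, η i * φ (g i)) := by
          rw [Finset.mul_sum, map_sum]
          refine Finset.sum_congr rfl fun i _ => ?_
          rw [mul_comm, ← hπ]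
          congr 1
          ring
        rw [h6]
        have h7 : ∑ i, η i * φ (g i) = 0 := hη
        rw [h7, mul_zero, map_zero]
      | add a b ha hb =>
        rw [add_mul, map_add]
        exact Ideal.add_mem _ ha hb
    | zero =>
      intro a
      rw [mul_zero, map_zero]
      exact Ideal.zero_mem _
    | add x y _ _ hx hy =>
      intro a
      rw [mul_add, map_add]
      exact Ideal.add_mem _ (hx a) (hy a)
    | smul b x _ hx =>
      intro a
      rw [smul_eq_mul, ← mul_assoc]
      exact hx (a * b)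
  have h4 := h3 _ h1 1
  rwa [one_mul] at h4

end Pool.Agent.H940.W
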