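import Pool.Agent.H940.LT.Hom

set_option autoImplicit false
set_option linter.unusedSectionVars false
set_option linter.unusedVariables false

/-! # Generic choices -/

namespace Pool.Agent.H940.W

open MvPolynomial Cardinal
open Pool.Agent.H940.LT (eval_homog)

/-- too many elements of a localization of a polynomial ring are algebraically dependent -/
theorem dep_away {τ J : Type} [Fintype τ] [Fintype J] (v : MvPolynomial τ ℂ) (hv : v ≠ 0)
    (x : J → Localization.Away v) (h : Fintype.card τ < Fintype.card J) :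
    ¬ AlgebraicIndependent ℂ x := by
  intro hx
  have hM : Submonoid.powers v ≤ nonZeroDivisors (MvPolynomial τ ℂ) :=
    powers_le_nonZeroDivisors_of_noZeroDivisors hv
  have hdom : IsDomain (Localization.Away v) := IsLocalization.isDomain_localization hM
  have hinj : Function.Injective (algebraMap (MvPolynomial τ ℂ) (Localization.Away v)) :=
    IsLocalization.injective _ hM
  have hfs : FaithfulSMul (MvPolynomial τ ℂ) (Localization.Away v) :=
    (faithfulSMul_iff_algebraMap_injective _ _).2 hinj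
  have hal : Algebra.IsAlgebraic (MvPolynomial τ ℂ) (Localization.Away v) :=
    IsLocalization.isAlgebraic (Localization.Away v) (Submonoid.powers v)
  have h1 := _root_.trdeg_add_eq ℂ (MvPolynomial τ ℂ) (A := Localization.Away v)
  rw [_root_.trdeg_eq_zero (R := MvPolynomial τ ℂ), add_zero, MvPolynomial.trdeg_of_isDomain] at h1
  have h2 := hx.cardinalMk_le_trdeg
  rw [← h1] at h2
  simp at h2
  omega

theorem eval_ins {n : ℕ} {τ : Type} (k0 : Fin (n + 1)) (u : Fin n → MvPolynomial τ ℂ)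
    (θ : τ → ℂ) (q : Fin (n + 1) → ℂ) (hq : q k0 = 1)
    (hu : ∀ t, eval θ (u t) = q (k0.succAbove t)) (F : MvPolynomial (Fin (n + 1)) ℂ) :
    eval θ (aeval (k0.insertNth 1 u : Fin (n + 1) → MvPolynomial τ ℂ) F) = eval q F := by
  have h1 : (eval θ).comp (aeval (k0.insertNth 1 u : Fin (n + 1) → MvPolynomial τ ℂ) :
      MvPolynomial (Fin (n + 1)) ℂ →ₐ[ℂ] MvPolynomial τ ℂ).toRingHom = eval q := by
    apply ringHom_ext
    · intro r
      simp
    · intro i
      change eval θ (aeval (k0.insertNth 1 u : Fin (n + 1) → MvPolynomial τ ℂ) (X i)) = _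
      rw [aeval_X, eval_X]
      refine Fin.succAboveCases k0 ?_ (fun t => ?_) i
      · rw [Fin.insertNth_apply_same, map_one, hq]
      · rw [Fin.insertNth_apply_succAbove, hu]
  exact RingHom.congr_fun h1 F

/-- the bad parameters of one chart -/
theorem gen_chart {n : ℕ} (k0 : Fin (n + 1)) (F V0 : MvPolynomial (Fin (n + 1)) ℂ)
    (V : Fin n → MvPolynomial (Fin (n + 1)) ℂ) (δ : Fin n → ℕ)
    (hF : aeval (k0.insertNth 1 fun t => X (Sum.inl t) :
      Fin (n + 1) → MvPolynomial (Fin n ⊕ (Fin n × Fin n)) ℂ) F ≠ 0) :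
    ∃ G : MvPolynomial (Fin n × Fin (n + 1)) ℂ, G ≠ 0 ∧
      ∀ (q : Fin (n + 1) → ℂ) (c : Fin n × Fin (n + 1) → ℂ), q k0 = 1 → eval q F = 0 →
        eval q V0 ≠ 0 → (∀ j, eval q (V j) = (∑ k, c (j, k) * q k ^ δ j) * eval q V0) →
        eval c G = 0 := by
  classical
  set y : Fin (n + 1) → MvPolynomial (Fin n ⊕ (Fin n × Fin n)) ℂ :=
    k0.insertNth 1 fun t => X (Sum.inl t) with hy
  set v := aeval y V0 with hv
  -- the evaluation at a point
  set θ : (Fin (n + 1) → ℂ) → (Fin n × Fin (n + 1) → ℂ) → Fin n ⊕ (Fin n × Fin n) → ℂ :=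
    fun q c => Sum.elim (fun t => q (k0.succAbove t)) fun jt => c (jt.1, k0.succAbove jt.2)
    with hθ
  have hev : ∀ q c, q k0 = 1 → ∀ P : MvPolynomial (Fin (n + 1)) ℂ,
      eval (θ q c) (aeval y P) = eval q P := by
    intro q c hq P
    refine eval_ins k0 _ _ q hq (fun t => ?_) P
    rw [eval_X]
    rfl
  by_cases hv0 : v = 0
  · refine ⟨1, one_ne_zero, fun q c hq _ h0 _ => absurd ?_ h0⟩
    rw [← hev q c hq, ← hv, hv0, map_zero]
  have hM : Submonoid.powers v ≤ nonZeroDivisors (MvPolynomial (Fin n ⊕ (Fin n × Fin n)) ℂ) :=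
    powers_le_nonZeroDivisors_of_noZeroDivisors hv0
  have hdom : IsDomain (Localization.Away v) := IsLocalization.isDomain_localization hM
  set ι := algebraMap (MvPolynomial (Fin n ⊕ (Fin n × Fin n)) ℂ) (Localization.Away v) with hι
  have hinj : Function.Injective ι := IsLocalization.injective _ hM
  set iv : Localization.Away v := IsLocalization.Away.invSelf v with hiv
  set ψ : Fin n → Localization.Away v := fun j => ι (aeval y (V j)) * iv -
    ∑ t, ι (X (Sum.inr (j, t)) * X (Sum.inl t) ^ δ j) with hψ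
  set x1 : Fin n × Fin (n + 1) → Localization.Away v := fun jk =>
    (k0.insertNth (ψ jk.1) fun t => ι (X (Sum.inr (jk.1, t))) :
      Fin (n + 1) → Localization.Away v) jk.2 with hx1
  set x : Option (Fin n × Fin (n + 1)) → Localization.Away v :=
    fun o => o.elim (ι (aeval y F)) x1 with hx
  have hdep := dep_away v hv0 x (by
    simp only [Fintype.card_sum, Fintype.card_prod, Fintype.card_fin, Fintype.card_option]
    nlinarith)
  rw [algebraicIndependent_iff] at hdep
  push Not at hdep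
  obtain ⟨Ψ, h2, h3⟩ := hdep
  set φ : MvPolynomial (Fin n × Fin (n + 1)) ℂ →ₐ[ℂ] Localization.Away v := aeval x1 with hφ
  have h5 : ∀ Ψ : MvPolynomial (Option (Fin n × Fin (n + 1))) ℂ, aeval x Ψ =
      Polynomial.eval₂ φ.toRingHom (ι (aeval y F))
        (optionEquivLeft ℂ (Fin n × Fin (n + 1)) Ψ) := by
    intro Ψ
    induction Ψ using MvPolynomial.induction_on with
    | C a =>
      rw [optionEquivLeft_C, Polynomial.eval₂_C, algHom_C]
      exact (algHom_C φ a).symm
    | add p q hp hq => rw [map_add, map_add, Polynomial.eval₂_add, hp, hq]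
    | mul_X p i hp =>
      rw [map_mul, map_mul, Polynomial.eval₂_mul, hp, aeval_X]
      congr 1
      cases i with
      | none => rw [optionEquivLeft_X_none, Polynomial.eval₂_X]; rfl
      | some i =>
        rw [optionEquivLeft_X_some, Polynomial.eval₂_C]
        exact (aeval_X (R := ℂ) x1 i).symm
  set P := optionEquivLeft ℂ (Fin n × Fin (n + 1)) Ψ with hP
  have hP0 : P ≠ 0 := by
    intro h
    exact h3 ((optionEquivLeft ℂ (Fin n × Fin (n + 1))).injective (by rw [← hP, h, map_zero]))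
  obtain ⟨Q, hQ1, hQ2⟩ := Polynomial.exists_eq_pow_rootMultiplicity_mul_and_not_dvd P hP0 0
  rw [h5, ← hP] at h2
  rw [map_zero, sub_zero] at hQ1 hQ2
  rw [hQ1, Polynomial.eval₂_mul, Polynomial.eval₂_pow, Polynomial.eval₂_X] at h2
  have hF0 : ι (aeval y F) ≠ 0 := fun h => hF (hinj (by rw [h, map_zero]))
  have h6 := (mul_eq_zero.1 h2).resolve_left (pow_ne_zero _ hF0)
  refine ⟨Q.coeff 0, fun h => hQ2 (Polynomial.X_dvd_iff.2 h), fun q c hq h0 hv1 hj => ?_⟩
  have hu : IsUnit (eval (θ q c) v) := by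
    rw [hv, hev q c hq]
    exact isUnit_iff_ne_zero.2 hv1
  set ev : Localization.Away v →+* ℂ := IsLocalization.Away.lift v hu with hevd
  have hevι : ∀ a, ev (ι a) = eval (θ q c) a := fun a => IsLocalization.Away.lift_eq v hu a
  have hviv : ev iv = (eval q V0)⁻¹ := by
    have h7 : ι v * iv = 1 := IsLocalization.Away.mul_invSelf v
    have h8 := congrArg ev h7
    have h9 : eval (θ q c) v = eval q V0 := hev q c hq V0
    rw [map_mul, map_one, hevι, h9] at h8
    exact eq_inv_of_mul_eq_one_right h8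
  have hcomp : ev.comp φ.toRingHom = eval c := by
    apply ringHom_ext
    · intro r
      change ev (φ (C r)) = _
      rw [algHom_C, eval_C, IsScalarTower.algebraMap_apply ℂ
        (MvPolynomial (Fin n ⊕ (Fin n × Fin n)) ℂ) (Localization.Away v), algebraMap_eq]
      change ev (ι (C r)) = _
      rw [hevι, eval_C]
    · rintro ⟨j, k⟩
      change ev (φ (X (j, k))) = _
      rw [hφ, aeval_X, eval_X]
      change ev ((k0.insertNth (ψ j) fun t => ι (X (Sum.inr (j, t))) :
        Fin (n + 1) → Localization.Away v) k) = _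
      refine Fin.succAboveCases k0 ?_ (fun t => ?_) k
      · rw [Fin.insertNth_apply_same]
        change ev (ι (aeval y (V j)) * iv - ∑ t, ι (X (Sum.inr (j, t)) * X (Sum.inl t) ^ δ j)) = _
        simp only [map_sub, map_mul, map_sum, map_pow, hevι, hev q c hq, hviv, eval_X]
        rw [hj j, Fin.sum_univ_succAbove _ k0, hq, one_pow, mul_one, mul_inv_cancel_right₀ hv1]
        change c (j, k0) + _ - ∑ t, c (j, k0.succAbove t) * q (k0.succAbove t) ^ δ j = _
        ring
      · rw [Fin.insertNth_apply_succAbove, hevι, eval_X]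
        rfl
  have h7 := congrArg ev h6
  rw [map_zero, Polynomial.hom_eval₂, hcomp, hevι, hev q c hq, h0, Polynomial.eval₂_at_zero] at h7
  exact h7

theorem deh_ne {n : ℕ} {τ : Type} (k0 : Fin (n + 1)) (ξ : Fin n → τ) (hξ : Function.Injective ξ)
    (F : MvPolynomial (Fin (n + 1)) ℂ) (D : ℕ) (hF : F ≠ 0) (hFh : F.IsHomogeneous D) :
    aeval (k0.insertNth 1 fun t => X (ξ t) : Fin (n + 1) → MvPolynomial τ ℂ) F ≠ 0 := by
  classical
  intro h
  apply hF
  have h1 : X k0 * F = 0 := by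
    apply MvPolynomial.funext
    intro q
    rw [map_mul, eval_X, map_zero]
    by_cases hq : q k0 = 0
    · rw [hq, zero_mul]
    · have h2 : eval ((q k0)⁻¹ • q) F = 0 := by
        have h3 : ((q k0)⁻¹ • q) k0 = 1 := by
          rw [Pi.smul_apply, smul_eq_mul, inv_mul_cancel₀ hq]
        have h4 := eval_ins (τ := τ) k0 (fun t => X (ξ t))
          (fun s => if hs : ∃ t, ξ t = s then ((q k0)⁻¹ • q) (k0.succAbove hs.choose) else 0)
          ((q k0)⁻¹ • q) h3 (fun t => by
            rw [eval_X]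
            have hs : ∃ t', ξ t' = ξ t := ⟨t, rfl⟩
            rw [dif_pos hs, hξ hs.choose_spec]) F
        rw [← h4, h, map_zero]
      have h3 : q = q k0 • ((q k0)⁻¹ • q) := by
        rw [smul_smul, mul_inv_cancel₀ hq, one_smul]
      rw [h3, eval_homog F D hFh, h2]
      ring
  exact (mul_eq_zero.1 h1).resolve_left (X_ne_zero k0)

/-- the bad parameters -/
theorem gen_all {n : ℕ} (F V0 : MvPolynomial (Fin (n + 1)) ℂ)
    (V : Fin n → MvPolynomial (Fin (n + 1)) ℂ) (δ : Fin n → ℕ) (D e0 : ℕ) (hF : F ≠ 0)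
    (hFh : F.IsHomogeneous D) (hV0 : V0.IsHomogeneous e0)
    (hV : ∀ j, (V j).IsHomogeneous (e0 + δ j)) :
    ∃ G : MvPolynomial (Fin n × Fin (n + 1)) ℂ, G ≠ 0 ∧
      ∀ (q : Fin (n + 1) → ℂ) (c : Fin n × Fin (n + 1) → ℂ), q ≠ 0 → eval q F = 0 →
        eval q V0 ≠ 0 → (∀ j, eval q (V j) = (∑ k, c (j, k) * q k ^ δ j) * eval q V0) →
        eval c G = 0 := by
  choose G hG hG2 using fun k0 => gen_chart k0 F V0 V δ
    (deh_ne k0 Sum.inl Sum.inl_injective F D hF hFh)
  refine ⟨∏ k0, G k0, Finset.prod_ne_zero_iff.2 fun k0 _ => hG k0, fun q c hq h0 h1 h2 => ?_⟩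
  obtain ⟨k0, hk⟩ : ∃ k0, q k0 ≠ 0 := by
    by_contra hcon
    push Not at hcon
    exact hq (funext hcon)
  rw [map_prod]
  refine Finset.prod_eq_zero (Finset.mem_univ k0) (hG2 k0 ((q k0)⁻¹ • q) c ?_ ?_ ?_ fun j => ?_)
  · rw [Pi.smul_apply, smul_eq_mul, inv_mul_cancel₀ hk]
  · rw [eval_homog F D hFh, h0, mul_zero]
  · rw [eval_homog V0 e0 hV0]
    exact mul_ne_zero (pow_ne_zero _ (inv_ne_zero hk)) h1
  · rw [eval_homog (V j) _ (hV j), eval_homog V0 e0 hV0, h2 j, pow_add]
    have h3 : ∑ k, c (j, k) * ((q k0)⁻¹ • q) k ^ δ j =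
        (q k0)⁻¹ ^ δ j * ∑ k, c (j, k) * q k ^ δ j := by
      rw [Finset.mul_sum]
      refine Finset.sum_congr rfl fun k _ => ?_
      rw [Pi.smul_apply, smul_eq_mul, mul_pow]
      ring
    rw [h3]
    ring

/-- **The choice of the parameters.** -/
theorem exists_gen {n : ℕ} (F V0 : MvPolynomial (Fin (n + 1)) ℂ)
    (V : Fin n → MvPolynomial (Fin (n + 1)) ℂ) (δ : Fin n → ℕ) (D e0 : ℕ) (hF : F ≠ 0)
    (hFh : F.IsHomogeneous D) (hV0 : V0.IsHomogeneous e0)
    (hV : ∀ j, (V j).IsHomogeneous (e0 + δ j)) (T : Finset (Fin (n + 1) → ℂ))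
    (hT : ∀ t ∈ T, t ≠ 0) (E0 : MvPolynomial (Fin (n + 1)) ℂ)
    (E : Fin n → MvPolynomial (Fin (n + 1)) ℂ)
    (hE : ∀ t ∈ T, eval t E0 ≠ 0 ∨ ∃ j, eval t (E j) ≠ 0) :
    ∃ c : Fin n × Fin (n + 1) → ℂ, (∀ t ∈ T,
      eval t E0 + ∑ j, eval t (E j) * ∑ k, c (j, k) * t k ^ δ j ≠ 0) ∧
      ∀ q : Fin (n + 1) → ℂ, q ≠ 0 → eval q F = 0 →
        (∀ j, eval q (V j) = (∑ k, c (j, k) * q k ^ δ j) * eval q V0) → eval q V0 = 0 := by
  classical
  obtain ⟨G, hG, hG2⟩ := gen_all F V0 V δ D e0 hF hFh hV0 hV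
  set H : (Fin (n + 1) → ℂ) → MvPolynomial (Fin n × Fin (n + 1)) ℂ := fun t =>
    C (eval t E0) + ∑ j, C (eval t (E j)) * ∑ k, X (j, k) * C (t k ^ δ j) with hH
  have hev : ∀ c t, eval c (H t) =
      eval t E0 + ∑ j, eval t (E j) * ∑ k, c (j, k) * t k ^ δ j := by
    intro c t
    rw [hH]
    simp only [map_add, map_sum, map_mul, eval_C, eval_X]
  have hH0 : ∀ t ∈ T, H t ≠ 0 := by
    intro t ht h
    have h0 := hev 0 t
    rw [h, map_zero] at h0
    simp only [Pi.zero_apply, zero_mul, Finset.sum_const_zero, mul_zero, add_zero] at h0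
    rcases hE t ht with h1 | ⟨j, hj⟩
    · exact h1 h0.symm
    · obtain ⟨k, hk⟩ : ∃ k, t k ≠ 0 := by
        by_contra hcon
        push Not at hcon
        exact hT t ht (funext hcon)
      have h2 := hev (Pi.single (j, k) 1) t
      rw [h, map_zero, ← h0, zero_add, Finset.sum_eq_single j, Finset.sum_eq_single k] at h2
      · rw [Pi.single_eq_same, one_mul] at h2
        exact mul_ne_zero hj (pow_ne_zero _ hk) h2.symm
      · intro k' _ hk'
        rw [Pi.single_eq_of_ne (by
          intro h3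
          exact hk' (Prod.ext_iff.1 h3).2), zero_mul]
      · intro h3
        exact absurd (Finset.mem_univ k) h3
      · intro j' _ hj'
        rw [Finset.sum_eq_zero, mul_zero]
        intro k' _
        rw [Pi.single_eq_of_ne (by
          intro h3
          exact hj' (Prod.ext_iff.1 h3).1), zero_mul]
      · intro h3
        exact absurd (Finset.mem_univ j) h3
  have h3 : G * ∏ t ∈ T, H t ≠ 0 := mul_ne_zero hG (Finset.prod_ne_zero_iff.2 hH0)
  obtain ⟨c, hc⟩ : ∃ c : Fin n × Fin (n + 1) → ℂ, eval c (G * ∏ t ∈ T, H t) ≠ 0 := by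
    by_contra hcon
    push Not at hcon
    exact h3 (MvPolynomial.funext fun c => by rw [hcon c, map_zero])
  rw [map_mul, map_prod] at hc
  refine ⟨c, fun t ht => ?_, fun q hq h0 h1 => ?_⟩
  · rw [← hev]
    exact Finset.prod_ne_zero_iff.1 (right_ne_zero_of_mul hc) t ht
  · by_contra h4
    exact left_ne_zero_of_mul hc (hG2 q c hq h0 h4 h1)

end Pool.Agent.H940.W
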