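import Pool.Agent.H940.W.Core
import Pool.Agent.H940.G.Formal
import Pool.Agent.H940.E.Cls

set_option autoImplicit false
set_option linter.unusedSectionVars false
set_option linter.unusedVariables false

/-! # The slices of a weighted homogeneous polynomial -/

namespace Pool.Agent.H940.W

open MvPolynomial
open Pool.Agent.H940.LT
open Pool.Agent.H940.E (slc)
open Pool.Agent.H940.G (WHG exists_euler exists_pow)

variable {n : ℕ}

theorem eval_slc (i : Fin (n + 1)) (P : Fin (n + 1) → ℂ) (z : Fin n → ℂ)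
    (G : MvPolynomial (Fin (n + 1)) ℂ) : eval z (slc i P G) =
      eval (i.insertNth (P i) fun t => z t + P (i.succAbove t) : Fin (n + 1) → ℂ) G := by
  unfold slc
  have h1 : (eval z).comp (aeval (i.insertNth (C (P i)) fun t => X t + C (P (i.succAbove t)) :
      Fin (n + 1) → MvPolynomial (Fin n) ℂ) : MvPolynomial (Fin (n + 1)) ℂ →ₐ[ℂ]
        MvPolynomial (Fin n) ℂ).toRingHom =
      eval (i.insertNth (P i) fun t => z t + P (i.succAbove t) : Fin (n + 1) → ℂ) := by
    apply ringHom_ext
    · intro r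
      simp
    · intro l
      change eval z (aeval _ (X l)) = _
      rw [aeval_X, eval_X]
      refine Fin.succAboveCases i ?_ (fun t => ?_) l
      · rw [Fin.insertNth_apply_same, Fin.insertNth_apply_same, eval_C]
      · rw [Fin.insertNth_apply_succAbove, Fin.insertNth_apply_succAbove, map_add, eval_X, eval_C]
  exact RingHom.congr_fun h1 G

theorem pderiv_slc (i : Fin (n + 1)) (P : Fin (n + 1) → ℂ) (t : Fin n)
    (G : MvPolynomial (Fin (n + 1)) ℂ) :
    pderiv t (slc i P G) = slc i P (pderiv (i.succAbove t) G) := by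
  classical
  unfold slc
  induction G using MvPolynomial.induction_on with
  | C a => rw [algHom_C, algebraMap_eq, pderiv_C, pderiv_C, map_zero]
  | add p q hp hq => rw [map_add, map_add, map_add, map_add, hp, hq]
  | mul_X p l hp =>
    rw [map_mul, aeval_X, Derivation.leibniz, Derivation.leibniz, map_add, smul_eq_mul,
      smul_eq_mul, smul_eq_mul, smul_eq_mul, map_mul, map_mul, aeval_X, hp]
    congr 2
    refine Fin.succAboveCases i ?_ (fun s => ?_) l
    · rw [Fin.insertNth_apply_same, pderiv_C, pderiv_X_of_ne (Fin.succAbove_ne i t).symm,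
        map_zero]
    · rw [Fin.insertNth_apply_succAbove, map_add, pderiv_C, add_zero, pderiv_X, pderiv_X]
      by_cases hs : s = t
      · rw [hs, Pi.single_eq_same, Pi.single_eq_same, map_one]
      · rw [Pi.single_eq_of_ne hs, Pi.single_eq_of_ne
          (fun h => hs (Fin.succAbove_right_injective h)), map_zero]

theorem eval_pw (w : Fin n → ℕ) (v : Fin n → ℂ) (a : MvPolynomial (Fin n) ℂ) :
    eval v (pw w a) = eval (fun i => v i ^ w i) a := by
  unfold pw
  have h2 : (eval v).comp (aeval fun i => X i ^ w i : MvPolynomial (Fin n) ℂ →ₐ[ℂ]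
      MvPolynomial (Fin n) ℂ).toRingHom = eval fun i => v i ^ w i := by
    apply ringHom_ext
    · intro r
      simp
    · intro i
      simp
  exact RingHom.congr_fun h2 _

theorem pw_ne {w : Fin n → ℕ} (hw : ∀ i, 0 < w i) {a : MvPolynomial (Fin n) ℂ} (ha : a ≠ 0) :
    pw w a ≠ 0 := by
  intro h
  apply ha
  apply MvPolynomial.funext
  intro x
  rw [map_zero]
  choose v hv using fun i => IsAlgClosed.exists_pow_nat_eq (x i) (hw i)
  have h1 := eval_pw w v a
  rw [h, map_zero] at h1
  rw [show x = fun i => v i ^ w i from funext fun i => (hv i).symm]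
  exact h1.symm

/-- the coordinates of the slice -/
noncomputable def zc (w : Fin (n + 1) → ℕ) (i : Fin (n + 1)) (q y : Fin (n + 1) → ℂ) :
    Fin n → ℂ := fun t => (q i / y i * y (i.succAbove t)) ^ w (i.succAbove t) -
      q (i.succAbove t) ^ w (i.succAbove t)

theorem eval_zc (w : Fin (n + 1) → ℕ) (i : Fin (n + 1)) (q y : Fin (n + 1) → ℂ) (hy : y i ≠ 0)
    (G : MvPolynomial (Fin (n + 1)) ℂ) :
    eval (zc w i q y) (slc i (fun j => q j ^ w j) G) = eval ((q i / y i) • y) (pw w G) := by
  rw [eval_slc, eval_pw]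
  congr 1
  congr 1
  funext l
  refine Fin.succAboveCases i ?_ (fun t => ?_) l
  · rw [Fin.insertNth_apply_same, Pi.smul_apply, smul_eq_mul, div_mul_cancel₀ _ hy]
  · rw [Fin.insertNth_apply_succAbove, Pi.smul_apply, smul_eq_mul]
    unfold zc
    ring

/-- clearing the denominators -/
theorem clear (w : Fin (n + 1) → ℕ) (i : Fin (n + 1)) (q : Fin (n + 1) → ℂ)
    (a : MvPolynomial (Fin n) ℂ) : ∃ M0 : ℕ, ∀ M, M0 ≤ M →
      ∃ A : MvPolynomial (Fin (n + 1)) ℂ, ∀ y : Fin (n + 1) → ℂ, y i ≠ 0 →
        eval y A = y i ^ M * eval (zc w i q y) a := by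
  induction a using MvPolynomial.induction_on with
  | C c =>
    refine ⟨0, fun M _ => ⟨X i ^ M * C c, fun y _ => ?_⟩⟩
    rw [map_mul, map_pow, eval_X, eval_C, eval_C]
  | add a b ha hb =>
    obtain ⟨M1, h1⟩ := ha
    obtain ⟨M2, h2⟩ := hb
    refine ⟨max M1 M2, fun M hM => ?_⟩
    obtain ⟨A, hA⟩ := h1 M (le_trans (le_max_left _ _) hM)
    obtain ⟨B, hB⟩ := h2 M (le_trans (le_max_right _ _) hM)
    refine ⟨A + B, fun y hy => ?_⟩
    rw [map_add, map_add, hA y hy, hB y hy, mul_add]
  | mul_X a t ha =>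
    obtain ⟨M1, h1⟩ := ha
    refine ⟨M1 + w (i.succAbove t), fun M hM => ?_⟩
    obtain ⟨A, hA⟩ := h1 (M - w (i.succAbove t)) (by omega)
    refine ⟨A * (C (q i ^ w (i.succAbove t)) * X (i.succAbove t) ^ w (i.succAbove t) -
      C (q (i.succAbove t) ^ w (i.succAbove t)) * X i ^ w (i.succAbove t)), fun y hy => ?_⟩
    simp only [map_mul, map_sub, map_pow, eval_X, eval_C, hA y hy]
    have h3 : y i ^ M = y i ^ (M - w (i.succAbove t)) * y i ^ w (i.succAbove t) := by
      rw [← pow_add]
      congr 1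
      omega
    rw [h3]
    unfold zc
    rw [mul_pow, div_pow]
    have h4 : y i ^ w (i.succAbove t) ≠ 0 := pow_ne_zero _ hy
    field_simp

theorem zc_self (w : Fin (n + 1) → ℕ) (i : Fin (n + 1)) (q : Fin (n + 1) → ℂ) (hq : q i ≠ 0) :
    zc w i q q = 0 := by
  funext t
  unfold zc
  rw [div_self hq, one_mul, sub_self, Pi.zero_apply]

section

variable {w : Fin (n + 1) → ℕ} (hw : ∀ i, 0 < w i) {d : ℕ} (hd : ∀ i, w i < d)
  {f : MvPolynomial (Fin (n + 1)) ℂ} (hf : f.IsWeightedHomogeneous w d) (hf0 : f ≠ 0)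
include hw hd hf hf0

theorem V_hom (i : Fin (n + 1)) : (pw w (pderiv i f)).IsHomogeneous (d - w i) :=
  pw_hom w _ _ (hf.pderiv (by have := hd i; omega))

theorem euler_V : C (d : ℂ) * pw w f = ∑ j, C (w j : ℂ) * X j ^ w j * pw w (pderiv j f) := by
  have h1 := congrArg (pw w) (Pool.Agent.H940.Z.euler_w w f d hf)
  rw [map_mul, map_sum, algHom_C, algebraMap_eq] at h1
  rw [← h1]
  refine Finset.sum_congr rfl fun j _ => ?_
  rw [map_mul, map_mul, algHom_C, algebraMap_eq]
  congr 2
  unfold pw
  rw [aeval_X]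

theorem d_ne : (d : ℂ) ≠ 0 := by
  have := hd 0
  have h2 := hw 0
  have : d ≠ 0 := by omega
  exact_mod_cast this

theorem eval_F {q : Fin (n + 1) → ℂ} (hs : ∀ j, eval q (pw w (pderiv j f)) = 0) :
    eval q (pw w f) = 0 := by
  have h1 := congrArg (eval q) (euler_V hw hd hf hf0)
  rw [map_mul, eval_C, map_sum, Finset.sum_eq_zero fun j _ => by
    rw [map_mul, hs j, mul_zero]] at h1
  exact (mul_eq_zero.1 h1).resolve_left (d_ne hw hd hf hf0)

theorem npos {q : Fin (n + 1) → ℂ} (hq : q ≠ 0)
    (hs : ∀ j, eval q (pw w (pderiv j f)) = 0) : 0 < n := by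
  rcases Nat.eq_zero_or_pos n with h0 | h0
  swap
  · exact h0
  exfalso
  subst h0
  have hsub : ∀ l : Fin (0 + 1), l = 0 := fun l => Fin.ext (by omega)
  have h1 := eval_F hw hd hf hf0 hs
  have hq0 : q 0 ≠ 0 := by
    intro h
    apply hq
    funext l
    rw [hsub l, h, Pi.zero_apply]
  refine pw_ne hw hf0 (MvPolynomial.funext fun v => ?_)
  have h2 : v = (v 0 / q 0) • q := by
    funext l
    rw [hsub l, Pi.smul_apply, smul_eq_mul, div_mul_cancel₀ _ hq0]
  rw [h2, eval_homog (pw w f) d (pw_hom w _ _ hf), h1, mul_zero, map_zero]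

variable (HS : ∀ P : Fin (n + 1) → ℂ, P ≠ 0 → (∀ j, eval P (pderiv j f) = 0) →
  ∃ i, P i ≠ 0 ∧ ∃ (g : MvPolynomial (Fin n) ℂ) (w' : Fin n → ℕ) (N : ℕ)
    (η : Fin n → MvPowerSeries (Fin n) ℂ), WHG (slc i P f) g w' N η)
include HS

/-- the slice at a point -/
theorem data {q : Fin (n + 1) → ℂ} (hq : q ≠ 0)
    (hs : ∀ j, eval q (pw w (pderiv j f)) = 0) : ∃ i, q i ≠ 0 ∧
      (∃ (u : MvPolynomial (Fin n) ℂ) (a : Fin n → MvPolynomial (Fin n) ℂ),
        constantCoeff u ≠ 0 ∧ (∀ t, constantCoeff (a t) = 0) ∧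
        u * slc i (fun j => q j ^ w j) f =
          ∑ t, a t * pderiv t (slc i (fun j => q j ^ w j) f)) ∧
      ∃ (L : ℕ) (u : MvPolynomial (Fin n) ℂ), constantCoeff u ≠ 0 ∧ ∀ t, u * X t ^ L ∈
        Ideal.span (Set.range fun t => pderiv t (slc i (fun j => q j ^ w j) f)) := by
  have hn := npos hw hd hf hf0 hq hs
  set P : Fin (n + 1) → ℂ := fun j => q j ^ w j with hP
  have hP0 : P ≠ 0 := by
    intro h
    apply hq
    funext j
    exact (pow_eq_zero_iff (hw j).ne').1 (congrFun h j)
  have hsP : ∀ j, eval P (pderiv j f) = 0 := by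
    intro j
    have := hs j
    rwa [eval_pw] at this
  obtain ⟨i, hi, g, w', N, η, hW⟩ := HS P hP0 hsP
  have hins : (i.insertNth (P i) fun t => (0 : Fin n → ℂ) t + P (i.succAbove t) :
      Fin (n + 1) → ℂ) = P := by
    funext l
    refine Fin.succAboveCases i ?_ (fun t => ?_) l
    · rw [Fin.insertNth_apply_same]
    · rw [Fin.insertNth_apply_succAbove, Pi.zero_apply, zero_add]
  have h0 : constantCoeff (slc i P f) = 0 := by
    rw [← eval_zero, eval_slc, hins]
    have := eval_F hw hd hf hf0 hs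
    rwa [eval_pw] at this
  have h1 : ∀ t, constantCoeff (pderiv t (slc i P f)) = 0 := by
    intro t
    rw [pderiv_slc, ← eval_zero, eval_slc, hins]
    exact hsP _
  refine ⟨i, fun h => hi (by rw [hP]; simp only [h]; exact zero_pow (hw i).ne'), ?_, ?_⟩
  · exact exists_euler hW h0 h1 hn
  · exact exists_pow hW h0 h1 hn

/-- **Local quasihomogeneity.** -/
theorem loc_euler {q : Fin (n + 1) → ℂ} (hq : q ≠ 0)
    (hs : ∀ j, eval q (pw w (pderiv j f)) = 0) :
    ∃ (U : MvPolynomial (Fin (n + 1)) ℂ) (A : Fin (n + 1) → MvPolynomial (Fin (n + 1)) ℂ),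
      eval q U ≠ 0 ∧ (∀ j, eval q (A j) = 0) ∧
      U * pw w f = ∑ j, A j * pw w (pderiv j f) := by
  classical
  obtain ⟨i, hi, ⟨u, a, hu, ha, hua⟩, -⟩ := data hw hd hf hf0 HS hq hs
  obtain ⟨M0, hM0⟩ := clear w i q u
  choose M1 hM1 using fun t => clear w i q (a t)
  set M := M0 + ∑ t, M1 t with hM
  obtain ⟨U, hU⟩ := hM0 M (by omega)
  have hle : ∀ t, M1 t ≤ M := fun t => by
    have := Finset.single_le_sum (fun t _ => Nat.zero_le (M1 t)) (Finset.mem_univ t)
    omega
  choose A hA using fun t => hM1 t M (hle t)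
  refine ⟨U, i.insertNth 0 fun t => A t * (C (q i)⁻¹ * X i) ^ w (i.succAbove t), ?_, ?_, ?_⟩
  · rw [hU q hi, zc_self w i q hi, eval_zero]
    exact mul_ne_zero (pow_ne_zero _ hi) hu
  · intro j
    refine Fin.succAboveCases i ?_ (fun t => ?_) j
    · rw [Fin.insertNth_apply_same, map_zero]
    · rw [Fin.insertNth_apply_succAbove, map_mul, hA t q hi, zc_self w i q hi, eval_zero, ha t,
        mul_zero, zero_mul]
  · have key : ∀ y : Fin (n + 1) → ℂ, y i ≠ 0 → eval y (U * pw w f) =
        eval y (∑ j, (i.insertNth 0 fun t => A t * (C (q i)⁻¹ * X i) ^ w (i.succAbove t) :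
          Fin (n + 1) → MvPolynomial (Fin (n + 1)) ℂ) j * pw w (pderiv j f)) := by
      intro y hy
      have hl0 : q i / y i ≠ 0 := div_ne_zero hi hy
      have h1 := congrArg (eval (zc w i q y)) hua
      rw [map_mul, map_sum, eval_zc w i q y hy,
        eval_homog (pw w f) d (pw_hom w _ _ hf)] at h1
      have h2 : ∀ t, eval (zc w i q y) (a t * pderiv t (slc i (fun j => q j ^ w j) f)) =
          (q i / y i) ^ d * (eval (zc w i q y) (a t) * ((q i)⁻¹ * y i) ^ w (i.succAbove t) *
            eval y (pw w (pderiv (i.succAbove t) f))) := by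
        intro t
        rw [map_mul, pderiv_slc, eval_zc w i q y hy,
          eval_homog _ _ (V_hom hw hd hf hf0 (i.succAbove t))]
        have h3 : (q i / y i) ^ d = (q i / y i) ^ (d - w (i.succAbove t)) *
            (q i / y i) ^ w (i.succAbove t) := by
          rw [← pow_add]
          congr 1
          have := hd (i.succAbove t)
          omega
        have h4 : (q i / y i) ^ w (i.succAbove t) * ((q i)⁻¹ * y i) ^ w (i.succAbove t) = 1 := by
          rw [← mul_pow]
          have : q i / y i * ((q i)⁻¹ * y i) = 1 := by field_simp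
          rw [this, one_pow]
        rw [h3]
        linear_combination (-(eval (zc w i q y) (a t) * (q i / y i) ^ (d - w (i.succAbove t)) *
          eval y (pw w (pderiv (i.succAbove t) f)))) * h4
      rw [Finset.sum_congr rfl fun t _ => h2 t, ← Finset.mul_sum, ← mul_assoc,
        mul_comm (eval (zc w i q y) u), mul_assoc] at h1
      have h3 := mul_left_cancel₀ (pow_ne_zero d hl0) h1
      rw [map_mul, hU y hy, Fin.sum_univ_succAbove _ i, Fin.insertNth_apply_same, zero_mul,
        zero_add, map_sum, mul_assoc, h3, Finset.mul_sum]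
      refine Finset.sum_congr rfl fun t _ => ?_
      rw [Fin.insertNth_apply_succAbove, map_mul, map_mul, map_pow, map_mul, eval_C, eval_X,
        hA t y hy]
      ring
    have h1 : X i * (U * pw w f - ∑ j, (i.insertNth 0 fun t =>
        A t * (C (q i)⁻¹ * X i) ^ w (i.succAbove t) :
          Fin (n + 1) → MvPolynomial (Fin (n + 1)) ℂ) j * pw w (pderiv j f)) = 0 := by
      apply MvPolynomial.funext
      intro y
      rw [map_mul, eval_X, map_sub, map_zero]
      by_cases hy : y i = 0
      · rw [hy, zero_mul]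
      · rw [key y hy, sub_self, mul_zero]
    exact sub_eq_zero.1 ((mul_eq_zero.1 h1).resolve_left (X_ne_zero i))

/-- **There are only finitely many singular lines.** -/
theorem fin_lines : ∃ T : Finset (Fin (n + 1) → ℂ), (∀ t ∈ T, t ≠ 0) ∧
    ∀ q : Fin (n + 1) → ℂ, q ≠ 0 → (∀ j, eval q (pw w (pderiv j f)) = 0) →
      ∃ t ∈ T, ∃ c : ℂ, q = c • t := by
  classical
  set K : Set (Fin (n + 1) → ℂ) := {y | ‖y‖ = 1 ∧ ∀ j, eval y (pw w (pderiv j f)) = 0} with hK
  have hKc : IsCompact K := by
    have h1 : K = Metric.sphere (0 : Fin (n + 1) → ℂ) 1 ∩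
        ⋂ j, {y | eval y (pw w (pderiv j f)) = 0} := by
      ext y
      simp only [hK, Set.mem_ofPred_eq, Set.mem_inter_iff, mem_sphere_zero_iff_norm,
        Set.mem_iInter]
    rw [h1]
    refine (isCompact_sphere _ _).inter_right (isClosed_iInter fun j => ?_)
    exact isClosed_eq (MvPolynomial.continuous_eval _) continuous_const
  have hloc : ∀ q ∈ K, ∃ N ∈ nhds q, ∃ T : Finset (Fin (n + 1) → ℂ), (∀ t ∈ T, t ≠ 0) ∧
      ∀ y ∈ N ∩ K, ∃ t ∈ T, ∃ c : ℂ, y = c • t := by
    intro q hq
    have hq0 : q ≠ 0 := by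
      intro h
      have := hq.1
      rw [h, norm_zero] at this
      exact zero_ne_one this
    obtain ⟨i, hi, -, L, u, hu, huL⟩ := data hw hd hf hf0 HS hq0 hq.2
    refine ⟨{y | y i ≠ 0 ∧ eval (zc w i q y) u ≠ 0}, ?_, ?_⟩
    · have h1 : ContinuousAt (fun y : Fin (n + 1) → ℂ => eval (zc w i q y) u) q := by
        refine (MvPolynomial.continuous_eval u).continuousAt.comp ?_
        refine continuousAt_pi.2 fun t => ?_
        unfold zc
        refine ((ContinuousAt.mul (ContinuousAt.div continuousAt_const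
          (continuous_apply i).continuousAt hi) (continuous_apply _).continuousAt).pow _).sub
          continuousAt_const
      have h2 : eval (zc w i q q) u ≠ 0 := by
        rw [zc_self w i q hi, eval_zero]
        exact hu
      exact Filter.inter_mem ((continuous_apply i).continuousAt.eventually_ne hi)
        (h1.eventually_ne h2)
    · have hfi : ∀ j, {t : ℂ | t ^ w j = q j ^ w j}.Finite := by
        intro j
        have h1 : {t : ℂ | t ^ w j = q j ^ w j} ⊆
            ((Polynomial.X ^ w j - Polynomial.C (q j ^ w j) : Polynomial ℂ).roots.toFinset :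
              Set ℂ) := by
          intro t ht
          rw [Finset.mem_coe, Multiset.mem_toFinset, Polynomial.mem_roots
            (Polynomial.X_pow_sub_C_ne_zero (hw j) _), Polynomial.IsRoot, Polynomial.eval_sub,
            Polynomial.eval_pow, Polynomial.eval_X, Polynomial.eval_C]
          exact sub_eq_zero.2 ht
        exact (Finset.finite_toSet _).subset h1
      have hfin : (Set.pi Set.univ fun j => {t : ℂ | t ^ w j = q j ^ w j}).Finite :=
        Set.Finite.pi fun j => hfi j
      refine ⟨hfin.toFinset, fun t ht h => ?_, fun y hy => ?_⟩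
      · rw [Set.Finite.mem_toFinset, Set.mem_univ_pi] at ht
        have h1 := ht i
        rw [Set.mem_ofPred_eq, h, Pi.zero_apply, zero_pow (hw i).ne'] at h1
        exact pow_ne_zero _ hi h1.symm
      · obtain ⟨⟨hyi, hyu⟩, hyK⟩ := hy
        have hl0 : q i / y i ≠ 0 := div_ne_zero hi hyi
        refine ⟨(q i / y i) • y, ?_, (q i / y i)⁻¹, ?_⟩
        · rw [Set.Finite.mem_toFinset, Set.mem_univ_pi]
          have hz : ∀ t, zc w i q y t = 0 := by
            intro t
            have h1 : Ideal.span (Set.range fun t => pderiv t (slc i (fun j => q j ^ w j) f)) ≤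
                RingHom.ker (eval (zc w i q y)) := by
              refine Ideal.span_le.2 ?_
              rintro _ ⟨s, rfl⟩
              change eval (zc w i q y) (pderiv s (slc i (fun j => q j ^ w j) f)) = 0
              rw [pderiv_slc, eval_zc w i q y hyi,
                eval_homog _ _ (V_hom hw hd hf hf0 (i.succAbove s)), hyK.2, mul_zero]
            have h2 := h1 (huL t)
            rw [RingHom.mem_ker, map_mul, map_pow, eval_X] at h2
            exact eq_zero_of_pow_eq_zero ((mul_eq_zero.1 h2).resolve_left hyu)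
          intro j
          rw [Set.mem_ofPred_eq, Pi.smul_apply, smul_eq_mul]
          refine Fin.succAboveCases i ?_ (fun t => ?_) j
          · rw [div_mul_cancel₀ _ hyi]
          · exact sub_eq_zero.1 (hz t)
        · rw [smul_smul, inv_mul_cancel₀ hl0, one_smul]
  choose! N hN T hT0 hT using hloc
  obtain ⟨s, hs⟩ := hKc.elim_nhds_subcover' (fun q _ => N q) fun q hq => hN q hq
  refine ⟨s.biUnion fun q => T q, fun t ht => ?_, fun q hq hqs => ?_⟩
  · obtain ⟨q, hq, hqt⟩ := Finset.mem_biUnion.1 ht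
    exact hT0 q q.2 t hqt
  · have hn0 : (‖q‖ : ℂ) ≠ 0 := by
      have := norm_ne_zero_iff.2 hq
      exact_mod_cast this
    have hy : ((‖q‖ : ℂ)⁻¹ • q) ∈ K := by
      refine ⟨?_, fun j => ?_⟩
      · rw [norm_smul, norm_inv, Complex.norm_real, norm_norm,
          inv_mul_cancel₀ (norm_ne_zero_iff.2 hq)]
      · rw [eval_homog _ _ (V_hom hw hd hf hf0 j), hqs j, mul_zero]
    obtain ⟨q', hq's, hq'⟩ := Set.mem_iUnion₂.1 (hs hy)
    obtain ⟨t, ht, c, hc⟩ := hT q' q'.2 _ ⟨hq', hy⟩
    refine ⟨t, Finset.mem_biUnion.2 ⟨q', hq's, ht⟩, (‖q‖ : ℂ) * c, ?_⟩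
    rw [mul_smul, ← hc, smul_smul, mul_inv_cancel₀ hn0, one_smul]

end

end Pool.Agent.H940.W
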