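import Pool.Agent.H940.W.Main

set_option autoImplicit false
set_option linter.unusedSectionVars false
set_option linter.unusedVariables false

/-! # Linear type for weighted homogeneous logarithmic gradients -/

namespace Pool.Agent.H940.W

open MvPolynomial
open Pool.Agent.H940.LT
open Pool.Agent.H940.E (slc)

variable {n : ℕ}

section

variable {w : Fin (n + 1) → ℕ} (hw : ∀ i, 0 < w i) {d : ℕ} (hd : ∀ i, w i < d)
  {G : MvPolynomial (Fin (n + 1)) ℂ} (hG : G.IsWeightedHomogeneous w d) (hG0 : G ≠ 0)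
  {v : Fin (n + 1) → MvPolynomial (Fin (n + 1)) ℂ}
  (hv : ∀ i, (v i).IsWeightedHomogeneous w (d - w i)) {e : ℂ} (he : e ≠ 0)
  (heu : ∑ i, (C (w i : ℂ) * X i) * v i = C e * G)
include hw hd hG hG0 hv he heu

theorem V_homV (i : Fin (n + 1)) : (pw w (v i)).IsHomogeneous (d - w i) := pw_hom w _ _ (hv i)

theorem euler_VV : C e * pw w G = ∑ j, C (w j : ℂ) * X j ^ w j * pw w (v j) := by
  have h1 := congrArg (pw w) heu
  rw [map_mul, map_sum, algHom_C, algebraMap_eq] at h1
  rw [← h1]
  refine Finset.sum_congr rfl fun j _ => ?_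
  rw [map_mul, map_mul, algHom_C, algebraMap_eq]
  congr 2
  unfold pw
  rw [aeval_X]

theorem eval_GV {q : Fin (n + 1) → ℂ} (hs : ∀ j, eval q (pw w (v j)) = 0) :
    eval q (pw w G) = 0 := by
  have h1 := congrArg (eval q) (euler_VV hw hd hG hG0 hv he heu)
  rw [map_mul, eval_C, map_sum, Finset.sum_eq_zero fun j _ => by
    rw [map_mul, hs j, mul_zero]] at h1
  exact (mul_eq_zero.1 h1).resolve_left he

variable (HS : ∀ P : Fin (n + 1) → ℂ, P ≠ 0 → (∀ j, eval P (v j) = 0) →
  ∃ i, P i ≠ 0 ∧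
    (∃ (u : MvPolynomial (Fin n) ℂ) (a : Fin n → MvPolynomial (Fin n) ℂ),
      constantCoeff u ≠ 0 ∧ (∀ t, constantCoeff (a t) = 0) ∧
      u * slc i P G = ∑ t, a t * slc i P (v (i.succAbove t))) ∧
    ∃ (L : ℕ) (u : MvPolynomial (Fin n) ℂ), constantCoeff u ≠ 0 ∧ ∀ t, u * X t ^ L ∈
      Ideal.span (Set.range fun t => slc i P (v (i.succAbove t))))
include HS

/-- the slice at a point -/
theorem dataV {q : Fin (n + 1) → ℂ} (hq : q ≠ 0)
    (hs : ∀ j, eval q (pw w (v j)) = 0) : ∃ i, q i ≠ 0 ∧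
      (∃ (u : MvPolynomial (Fin n) ℂ) (a : Fin n → MvPolynomial (Fin n) ℂ),
        constantCoeff u ≠ 0 ∧ (∀ t, constantCoeff (a t) = 0) ∧
        u * slc i (fun j => q j ^ w j) G =
          ∑ t, a t * slc i (fun j => q j ^ w j) (v (i.succAbove t))) ∧
      ∃ (L : ℕ) (u : MvPolynomial (Fin n) ℂ), constantCoeff u ≠ 0 ∧ ∀ t, u * X t ^ L ∈
        Ideal.span (Set.range fun t => slc i (fun j => q j ^ w j) (v (i.succAbove t))) := by
  set P : Fin (n + 1) → ℂ := fun j => q j ^ w j with hP
  have hP0 : P ≠ 0 := by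
    intro h
    apply hq
    funext j
    exact (pow_eq_zero_iff (hw j).ne').1 (congrFun h j)
  have hsP : ∀ j, eval P (v j) = 0 := by
    intro j
    have := hs j
    rwa [eval_pw] at this
  obtain ⟨i, hi, h1, h2⟩ := HS P hP0 hsP
  exact ⟨i, fun h => hi (by rw [hP]; simp only [h]; exact zero_pow (hw i).ne'), h1, h2⟩

/-- **Local quasihomogeneity.** -/
theorem loc_eulerV {q : Fin (n + 1) → ℂ} (hq : q ≠ 0)
    (hs : ∀ j, eval q (pw w (v j)) = 0) :
    ∃ (U : MvPolynomial (Fin (n + 1)) ℂ) (A : Fin (n + 1) → MvPolynomial (Fin (n + 1)) ℂ),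
      eval q U ≠ 0 ∧ (∀ j, eval q (A j) = 0) ∧
      U * pw w G = ∑ j, A j * pw w (v j) := by
  classical
  obtain ⟨i, hi, ⟨u, a, hu, ha, hua⟩, -⟩ := dataV hw hd hG hG0 hv he heu HS hq hs
  obtain ⟨M0, hM0⟩ := clear w i q u
  choose M1 hM1 using fun t => clear w i q (a t)
  set M := M0 + ∑ t, M1 t with hM
  obtain ⟨U, hU⟩ := hM0 M (by omega)
  have hle : ∀ t, M1 t ≤ M := fun t => by
    have := Finset.single_le_sum (fun t _ => Nat.zero_le (M1 t)) (Finset.mem_univ t)
    omega
  choose A hA using fun t => hM1 t M (hle t)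
  refine ⟨U, i.insertNth 0 fun t => A t * (C (q i)⁻¹ * X i) ^ w (i.succAbove t), ?_, ?_, ?_⟩
  · rw [hU q hi, zc_self w i q hi, eval_zero]
    exact mul_ne_zero (pow_ne_zero _ hi) hu
  · intro j
    refine Fin.succAboveCases i ?_ (fun t => ?_) j
    · rw [Fin.insertNth_apply_same, map_zero]
    · rw [Fin.insertNth_apply_succAbove, map_mul, hA t q hi, zc_self w i q hi, eval_zero, ha t,
        mul_zero, zero_mul]
  · have key : ∀ y : Fin (n + 1) → ℂ, y i ≠ 0 → eval y (U * pw w G) =
        eval y (∑ j, (i.insertNth 0 fun t => A t * (C (q i)⁻¹ * X i) ^ w (i.succAbove t) :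
          Fin (n + 1) → MvPolynomial (Fin (n + 1)) ℂ) j * pw w (v j)) := by
      intro y hy
      have hl0 : q i / y i ≠ 0 := div_ne_zero hi hy
      have h1 := congrArg (eval (zc w i q y)) hua
      rw [map_mul, map_sum, eval_zc w i q y hy,
        eval_homog (pw w G) d (pw_hom w _ _ hG)] at h1
      have h2 : ∀ t, eval (zc w i q y) (a t * slc i (fun j => q j ^ w j) (v (i.succAbove t))) =
          (q i / y i) ^ d * (eval (zc w i q y) (a t) * ((q i)⁻¹ * y i) ^ w (i.succAbove t) *
            eval y (pw w (v (i.succAbove t)))) := by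
        intro t
        rw [map_mul, eval_zc w i q y hy,
          eval_homog _ _ (V_homV hw hd hG hG0 hv he heu (i.succAbove t))]
        have h3 : (q i / y i) ^ d = (q i / y i) ^ (d - w (i.succAbove t)) *
            (q i / y i) ^ w (i.succAbove t) := by
          rw [← pow_add]
          congr 1
          have := hd (i.succAbove t)
          omega
        have h4 : (q i / y i) ^ w (i.succAbove t) * ((q i)⁻¹ * y i) ^ w (i.succAbove t) = 1 := by
          rw [← mul_pow]
          have : q i / y i * ((q i)⁻¹ * y i) = 1 := by field_simp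
          rw [this, one_pow]
        rw [h3]
        linear_combination (-(eval (zc w i q y) (a t) * (q i / y i) ^ (d - w (i.succAbove t)) *
          eval y (pw w (v (i.succAbove t))))) * h4
      rw [Finset.sum_congr rfl fun t _ => h2 t, ← Finset.mul_sum, ← mul_assoc,
        mul_comm (eval (zc w i q y) u), mul_assoc] at h1
      have h3 := mul_left_cancel₀ (pow_ne_zero d hl0) h1
      rw [map_mul, hU y hy, Fin.sum_univ_succAbove _ i, Fin.insertNth_apply_same, zero_mul,
        zero_add, map_sum, mul_assoc, h3, Finset.mul_sum]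
      refine Finset.sum_congr rfl fun t _ => ?_
      rw [Fin.insertNth_apply_succAbove, map_mul, map_mul, map_pow, map_mul, eval_C, eval_X,
        hA t y hy]
      ring
    have h1 : X i * (U * pw w G - ∑ j, (i.insertNth 0 fun t =>
        A t * (C (q i)⁻¹ * X i) ^ w (i.succAbove t) :
          Fin (n + 1) → MvPolynomial (Fin (n + 1)) ℂ) j * pw w (v j)) = 0 := by
      apply MvPolynomial.funext
      intro y
      rw [map_mul, eval_X, map_sub, map_zero]
      by_cases hy : y i = 0
      · rw [hy, zero_mul]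
      · rw [key y hy, sub_self, mul_zero]
    exact sub_eq_zero.1 ((mul_eq_zero.1 h1).resolve_left (X_ne_zero i))

/-- **There are only finitely many singular lines.** -/
theorem fin_linesV : ∃ T : Finset (Fin (n + 1) → ℂ), (∀ t ∈ T, t ≠ 0) ∧
    ∀ q : Fin (n + 1) → ℂ, q ≠ 0 → (∀ j, eval q (pw w (v j)) = 0) →
      ∃ t ∈ T, ∃ c : ℂ, q = c • t := by
  classical
  set K : Set (Fin (n + 1) → ℂ) := {y | ‖y‖ = 1 ∧ ∀ j, eval y (pw w (v j)) = 0} with hK
  have hKc : IsCompact K := by
    have h1 : K = Metric.sphere (0 : Fin (n + 1) → ℂ) 1 ∩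
        ⋂ j, {y | eval y (pw w (v j)) = 0} := by
      ext y
      simp only [hK, Set.mem_ofPred_eq, Set.mem_inter_iff, mem_sphere_zero_iff_norm,
        Set.mem_iInter]
    rw [h1]
    refine (isCompact_sphere _ _).inter_right (isClosed_iInter fun j => ?_)
    exact isClosed_eq (MvPolynomial.continuous_eval _) continuous_const
  have hloc : ∀ q ∈ K, ∃ N ∈ nhds q, ∃ T : Finset (Fin (n + 1) → ℂ), (∀ t ∈ T, t ≠ 0) ∧
      ∀ y ∈ N ∩ K, ∃ t ∈ T, ∃ c : ℂ, y = c • t := by
    intro q hq
    have hq0 : q ≠ 0 := by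
      intro h
      have := hq.1
      rw [h, norm_zero] at this
      exact zero_ne_one this
    obtain ⟨i, hi, -, L, u, hu, huL⟩ := dataV hw hd hG hG0 hv he heu HS hq0 hq.2
    refine ⟨{y | y i ≠ 0 ∧ eval (zc w i q y) u ≠ 0}, ?_, ?_⟩
    · have h1 : ContinuousAt (fun y : Fin (n + 1) → ℂ => eval (zc w i q y) u) q := by
        refine (MvPolynomial.continuous_eval u).continuousAt.comp ?_
        refine continuousAt_pi.2 fun t => ?_
        unfold zc
        refine ((ContinuousAt.mul (ContinuousAt.div continuousAt_const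
          (continuous_apply i).continuousAt hi) (continuous_apply _).continuousAt).pow _).sub
          continuousAt_const
      have h2 : eval (zc w i q q) u ≠ 0 := by
        rw [zc_self w i q hi, eval_zero]
        exact hu
      exact Filter.inter_mem ((continuous_apply i).continuousAt.eventually_ne hi)
        (h1.eventually_ne h2)
    · have hfi : ∀ j, {t : ℂ | t ^ w j = q j ^ w j}.Finite := by
        intro j
        have h1 : {t : ℂ | t ^ w j = q j ^ w j} ⊆
            ((Polynomial.X ^ w j - Polynomial.C (q j ^ w j) : Polynomial ℂ).roots.toFinset :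
              Set ℂ) := by
          intro t ht
          rw [Finset.mem_coe, Multiset.mem_toFinset, Polynomial.mem_roots
            (Polynomial.X_pow_sub_C_ne_zero (hw j) _), Polynomial.IsRoot, Polynomial.eval_sub,
            Polynomial.eval_pow, Polynomial.eval_X, Polynomial.eval_C]
          exact sub_eq_zero.2 ht
        exact (Finset.finite_toSet _).subset h1
      have hfin : (Set.pi Set.univ fun j => {t : ℂ | t ^ w j = q j ^ w j}).Finite :=
        Set.Finite.pi fun j => hfi j
      refine ⟨hfin.toFinset, fun t ht h => ?_, fun y hy => ?_⟩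
      · rw [Set.Finite.mem_toFinset, Set.mem_univ_pi] at ht
        have h1 := ht i
        rw [Set.mem_ofPred_eq, h, Pi.zero_apply, zero_pow (hw i).ne'] at h1
        exact pow_ne_zero _ hi h1.symm
      · obtain ⟨⟨hyi, hyu⟩, hyK⟩ := hy
        have hl0 : q i / y i ≠ 0 := div_ne_zero hi hyi
        refine ⟨(q i / y i) • y, ?_, (q i / y i)⁻¹, ?_⟩
        · rw [Set.Finite.mem_toFinset, Set.mem_univ_pi]
          have hz : ∀ t, zc w i q y t = 0 := by
            intro t
            have h1 : Ideal.span (Set.range fun t => slc i (fun j => q j ^ w j)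
                (v (i.succAbove t))) ≤ RingHom.ker (eval (zc w i q y)) := by
              refine Ideal.span_le.2 ?_
              rintro _ ⟨s, rfl⟩
              change eval (zc w i q y) (slc i (fun j => q j ^ w j) (v (i.succAbove s))) = 0
              rw [eval_zc w i q y hyi,
                eval_homog _ _ (V_homV hw hd hG hG0 hv he heu (i.succAbove s)), hyK.2, mul_zero]
            have h2 := h1 (huL t)
            rw [RingHom.mem_ker, map_mul, map_pow, eval_X] at h2
            exact eq_zero_of_pow_eq_zero ((mul_eq_zero.1 h2).resolve_left hyu)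
          intro j
          rw [Set.mem_ofPred_eq, Pi.smul_apply, smul_eq_mul]
          refine Fin.succAboveCases i ?_ (fun t => ?_) j
          · rw [div_mul_cancel₀ _ hyi]
          · exact sub_eq_zero.1 (hz t)
        · rw [smul_smul, inv_mul_cancel₀ hl0, one_smul]
  choose! N hN T hT0 hT using hloc
  obtain ⟨s, hs⟩ := hKc.elim_nhds_subcover' (fun q _ => N q) fun q hq => hN q hq
  refine ⟨s.biUnion fun q => T q, fun t ht => ?_, fun q hq hqs => ?_⟩
  · obtain ⟨q, hq, hqt⟩ := Finset.mem_biUnion.1 ht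
    exact hT0 q q.2 t hqt
  · have hn0 : (‖q‖ : ℂ) ≠ 0 := by
      have := norm_ne_zero_iff.2 hq
      exact_mod_cast this
    have hy : ((‖q‖ : ℂ)⁻¹ • q) ∈ K := by
      refine ⟨?_, fun j => ?_⟩
      · rw [norm_smul, norm_inv, Complex.norm_real, norm_norm,
          inv_mul_cancel₀ (norm_ne_zero_iff.2 hq)]
      · rw [eval_homog _ _ (V_homV hw hd hG hG0 hv he heu j), hqs j, mul_zero]
    obtain ⟨q', hq's, hq'⟩ := Set.mem_iUnion₂.1 (hs hy)
    obtain ⟨t, ht, c, hc⟩ := hT q' q'.2 _ ⟨hq', hy⟩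
    refine ⟨t, Finset.mem_biUnion.2 ⟨q', hq's, ht⟩, (‖q‖ : ℂ) * c, ?_⟩
    rw [mul_smul, ← hc, smul_smul, mul_inv_cancel₀ hn0, one_smul]

omit HS in
theorem euler_splitV (i0 : Fin (n + 1)) : pw w G = C ((w i0 : ℂ) / e) * X i0 ^ w i0 *
    pw w (v i0) + ∑ j, C ((w (i0.succAbove j) : ℂ) / e) *
      X (i0.succAbove j) ^ w (i0.succAbove j) * pw w (v (i0.succAbove j)) := by
  have h2 := euler_VV hw hd hG hG0 hv he heu
  have h4 : ∀ j, C e * (C ((w j : ℂ) / e) * X j ^ w j * pw w (v j)) =
      C (w j : ℂ) * X j ^ w j * pw w (v j) := by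
    intro j
    have h5 : (C e : MvPolynomial (Fin (n + 1)) ℂ) * C ((w j : ℂ) / e) = C (w j : ℂ) := by
      rw [← C_mul, mul_div_cancel₀ _ he]
    rw [← mul_assoc, ← mul_assoc, h5]
  have hC : (C e : MvPolynomial (Fin (n + 1)) ℂ) ≠ 0 := by
    rw [Ne, C_eq_zero]
    exact he
  have h6 := Fin.sum_univ_succAbove (fun j => C ((w j : ℂ) / e) * X j ^ w j * pw w (v j)) i0
  rw [← h6]
  apply mul_left_cancel₀ hC
  rw [h2, Finset.mul_sum]
  exact Finset.sum_congr rfl fun j _ => (h4 j).symm

/-- **Linear type.** -/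
theorem wltyV : LTy v := by
  classical
  refine lty_descend (pw w).toRingHom (prj w).toAddMonoidHom (fun a s => prj_pw w hw a s)
    (prj_one w) _ ?_
  obtain ⟨i0, hi0⟩ := Finite.exists_max w
  set σ : Fin (n + 1) ≃ Fin (n + 1) := (finSuccEquiv' 0).trans (finSuccEquiv' i0).symm with hσ
  have he0 : σ 0 = i0 := by
    rw [hσ, Equiv.trans_apply, finSuccEquiv'_at, finSuccEquiv'_symm_none]
  have hes : ∀ j : Fin n, σ j.succ = i0.succAbove j := by
    intro j
    rw [hσ, Equiv.trans_apply, ← Fin.zero_succAbove, finSuccEquiv'_succAbove,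
      finSuccEquiv'_symm_some]
  refine lty_perm σ _ ?_
  have h1 : (fun i => (pw w).toRingHom (v (σ i))) =
      (Fin.cons (pw w (v i0)) fun j => pw w (v (i0.succAbove j)) :
        Fin (n + 1) → MvPolynomial (Fin (n + 1)) ℂ) := by
    funext i
    refine Fin.cases ?_ (fun j => ?_) i
    · rw [Fin.cons_zero, he0]
      rfl
    · rw [Fin.cons_succ, hes]
      rfl
  rw [h1]
  obtain ⟨T, hT, hfin⟩ := fin_linesV hw hd hG hG0 hv he heu HS
  have hall : ∀ q : Fin (n + 1) → ℂ, eval q (pw w (v i0)) = 0 →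
      (∀ j, eval q (pw w (v (i0.succAbove j))) = 0) → ∀ j, eval q (pw w (v j)) = 0 := by
    intro q h1 h2 j
    exact Fin.succAboveCases i0 h1 h2 j
  refine core (pw w G) (pw w (v i0)) (fun j => pw w (v (i0.succAbove j)))
    (fun j => w i0 - w (i0.succAbove j)) (fun j => w (i0.succAbove j)) (d - w i0) (w i0) d
    (Nat.sub_pos_of_lt (hd i0)) (hw i0) (pw_ne hw hG0) (pw_hom w _ _ hG)
    (V_homV hw hd hG hG0 hv he heu i0) (fun j => ?_)
    (C ((w i0 : ℂ) / e) * X i0 ^ w i0)
    (fun j => C ((w (i0.succAbove j) : ℂ) / e) * X (i0.succAbove j) ^ w (i0.succAbove j))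
    ?_ (fun j => ?_) (fun j => ?_) ?_ T hT (fun t ht => ?_)
    (fun q hq h1 h2 => hfin q hq (hall q h1 h2)) (fun q hq h1 h2 => ?_)
  · have h2 := V_homV hw hd hG hG0 hv he heu (i0.succAbove j)
    have h3 : d - w i0 + (w i0 - w (i0.succAbove j)) = d - w (i0.succAbove j) := by
      have := hd i0
      have := hi0 (i0.succAbove j)
      omega
    rw [h3]
    exact h2
  · have h2 := (isHomogeneous_C (Fin (n + 1)) ((w i0 : ℂ) / e)).mul
      ((isHomogeneous_X ℂ i0).pow (w i0))
    rwa [zero_add, one_mul] at h2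
  · have h2 := (isHomogeneous_C (Fin (n + 1)) ((w (i0.succAbove j) : ℂ) / e)).mul
      ((isHomogeneous_X ℂ (i0.succAbove j)).pow (w (i0.succAbove j)))
    rwa [zero_add, one_mul] at h2
  · have := hi0 (i0.succAbove j)
    change w (i0.succAbove j) + (w i0 - w (i0.succAbove j)) = w i0
    omega
  · exact euler_splitV hw hd hG hG0 hv he heu i0
  · obtain ⟨k, hk⟩ : ∃ k, t k ≠ 0 := by
      by_contra hcon
      push Not at hcon
      exact hT t ht (funext hcon)
    have h2 : ∀ k, t k ≠ 0 → eval t (C ((w k : ℂ) / e) * X k ^ w k) ≠ 0 := by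
      intro k hk
      rw [map_mul, eval_C, map_pow, eval_X]
      have h3 : (w k : ℂ) ≠ 0 := by
        have := (hw k).ne'
        exact_mod_cast this
      exact mul_ne_zero (div_ne_zero h3 he) (pow_ne_zero _ hk)
    revert hk
    refine Fin.succAboveCases i0 (fun hk => ?_) (fun j hk => ?_) k
    · exact Or.inl (h2 _ hk)
    · exact Or.inr ⟨j, h2 _ hk⟩
  · obtain ⟨U, A, hU, hA, hUA⟩ := loc_eulerV hw hd hG hG0 hv he heu HS hq (hall q h1 h2)
    refine ⟨U, A i0, fun j => A (i0.succAbove j), hU, hA _, fun j => hA _, ?_⟩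
    rw [hUA, Fin.sum_univ_succAbove _ i0]

end

end Pool.Agent.H940.W
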